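import Pool.Agent.TH553.J769
import Pool.Agent.TH558.J890
set_option autoImplicit false

/-! Job 908, part 1: the argument with chains, for abstract systems of cells. -/
namespace Pool.Agent.TH511.AM
open Pool.Agent.TH547.Arc Pool.Agent.TH547.Arc.Sys
open Finset Equiv

/-- exactness from the null-homotopy and the lifting -/
theorem Ex_core {S : Sys} {F : Finset ℕ} {N T R0 Np N1 Tp : S.C → Prop}
    {clr i1 r g : S.C → S.C} {ins : ℕ → S.C → S.C} {i : ℕ}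
    (hN : Inv F N) (hT : Inv F T) (hR0 : Inv F R0) (hNp : Inv F Np) (hTp : Inv F Tp)
    (hNpc : Cvx F Np)
    (hNdl : ∀ X, N X → ∀ a ∈ S.nm X \ F, N (S.dl X a))
    (hNpdl : ∀ X, Np X → ∀ a ∈ S.nm X \ F, Np (S.dl X a))
    (hN1dl : ∀ X, N1 X → ∀ a ∈ S.nm X \ F, N1 (S.dl X a))
    (hTN : ∀ X, T X → N X) (hN1p : ∀ X, N1 X → Np X) (hTp' : ∀ X, Tp X ↔ Np X ∧ ¬ N1 X)
    (hTd : ∀ X, N X → ¬ T X → ∀ a ∈ S.nm X \ F, ¬ T (S.dl X a))
    (hNH : NH F Np N1 i)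
    (ni1 : Sys.Nat F N i1) (nr : Sys.Nat F Np r) (nclr : Sys.Nat F R0 clr) (ng : Sys.Nat F R0 g)
    (hi1 : ∀ X, N X → Np (i1 X)) (hi1T : ∀ X, N X → (Tp (i1 X) ↔ T X))
    (hr : ∀ X, Np X → N (r X)) (hri : ∀ X, N X → r (i1 X) = X)
    (hclr : ∀ X, R0 X → T (clr X)) (hg : ∀ X, R0 X → i1 (clr X) = g X)
    (hins : NatIns F R0 Tp ins g)
    (hlift : ∀ z ∈ Ch F T i, D F T z = 0 →
      ∃ w ∈ Ch F R0 i, push F R0 clr w = z ∧ D F R0 w = 0) :
    Ex F N i := by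
  intro z hz hDz
  have hor : ∀ X, N X ↔ (N X ∧ ¬ T X) ∨ T X := by
    intro X
    by_cases h : T X
    · exact iff_of_true (hTN X h) (Or.inr h)
    · exact ⟨fun h1 => Or.inl ⟨h1, h⟩, fun h1 => (h1.resolve_right h).1⟩
  have hdis : ∀ X, (N X ∧ ¬ T X) → ¬ T X := fun X h => h.2
  have hsub : ∀ X, (N X ∧ ¬ T X) → ∀ a ∈ S.nm X \ F, N (S.dl X a) →
      (N (S.dl X a) ∧ ¬ T (S.dl X a)) := fun X h a ha h1 => ⟨h1, hTd X h.1 h.2 a ha⟩
  have hor' : ∀ X, Np X ↔ N1 X ∨ Tp X := by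
    intro X
    rw [hTp']
    by_cases h : N1 X
    · exact iff_of_true (hN1p X h) (Or.inl h)
    · exact ⟨fun h1 => Or.inr ⟨h1, h⟩, fun h1 => (h1.resolve_left h).1⟩
  have hdis' : ∀ X, N1 X → ¬ Tp X := fun X h h1 => ((hTp' X).1 h1).2 h
  have hsub' : ∀ X, N1 X → ∀ a ∈ S.nm X \ F, Np (S.dl X a) → N1 (S.dl X a) :=
    fun X h a ha _ => hN1dl X h a ha
  have hzb : pr F T z ∈ Ch F T i := Pool.Agent.TH553.J769.pr_mem hT hz
  have hDzb : D F T (pr F T z) = 0 := by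
    rw [Pool.Agent.TH553.J769.D_quot hN hT hor hdis hsub hz, hDz, map_zero]
  obtain ⟨w0, hw0, hpw0, hDw0⟩ := hlift _ hzb hDzb
  obtain ⟨H, hH1, hH2⟩ := Pool.Agent.TH558.J890.exists_insOp hR0 hTp ng hins
  have h1 : D F Tp (H w0) = push F R0 g w0 := by
    have := hH2 i w0 hw0
    rw [hDw0, map_zero, add_zero] at this
    exact this
  have nT : Sys.Nat F T i1 := Pool.Agent.TH558.J890.nat_mono ni1 hTN
  have h2 : push F T i1 (pr F T z) = push F R0 g w0 := by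
    rw [← hpw0]
    exact Pool.Agent.TH558.J890.push_push (T := T) hR0 hT nclr nT ng hclr hg hw0
  have hw : H w0 ∈ Ch F Tp (i + 1) := hH1 i w0 hw0
  have hwp : H w0 ∈ Ch F Np (i + 1) :=
    Pool.Agent.TH553.J769.Ch_mono (fun X h => ((hTp' X).1 h).1) hw
  have hpi1 : push F N i1 z ∈ Ch F Np i := Pool.Agent.TH558.J890.push_mem hN ni1 hi1 hz
  have hpD : D F Np (push F N i1 z) = push F N i1 (D F N z) :=
    Pool.Agent.TH558.J890.push_D hN hNp ni1 (fun X hX a ha => iff_of_true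
      (hi1 _ (hNdl X hX a ha)) (hNdl X hX a ha)) hz
  have hy0 : D F Np (H w0) - push F N i1 z ∈ Ch F Np i :=
    Submodule.sub_mem _ (D_mem hNp hwp) hpi1
  have hpry : pr F Tp (D F Np (H w0) - push F N i1 z) = 0 := by
    rw [map_sub, ← Pool.Agent.TH553.J769.D_quot hNp hTp hor' hdis' hsub' hwp,
      Pool.Agent.TH553.J769.pr_of_mem hw, h1,
      Pool.Agent.TH558.J890.pr_push hN hT hTp ni1 hTN hi1T hz, h2, sub_self]
  have hy1 : D F Np (H w0) - push F N i1 z ∈ Ch F N1 i :=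
    Pool.Agent.TH553.J769.mem_sub hor' hy0 hpry
  have hDy : D F Np (D F Np (H w0) - push F N i1 z) = 0 := by
    rw [map_sub, D_D hNp hNpc hwp, hpD, hDz, map_zero, sub_zero]
  obtain ⟨y', hy', hDy'⟩ := hNH _ hy1 hDy
  have h3 : D F Np (H w0 - y') = push F N i1 z := by
    rw [map_sub, hDy']
    abel
  have hm : H w0 - y' ∈ Ch F Np (i + 1) := Submodule.sub_mem _ hwp hy'
  have nid : Sys.Nat F N (fun X => X) := ⟨fun _ _ => rfl, fun _ _ _ _ => rfl, fun _ _ _ _ => rfl⟩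
  refine ⟨push F Np r (H w0 - y'), Pool.Agent.TH558.J890.push_mem hNp nr hr hm, ?_⟩
  rw [Pool.Agent.TH558.J890.push_D hNp hN nr (fun X hX a ha => iff_of_true
      (hr _ (hNpdl X hX a ha)) (hNpdl X hX a ha)) hm, h3,
    Pool.Agent.TH558.J890.push_push (T := T) hN hNp ni1 nr nid hi1 hri hz,
    Pool.Agent.TH558.J890.push_id hN nid (fun _ _ => rfl) hz]

end Pool.Agent.TH511.AM
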