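import Pool.Agent.TH511.AM.Wd
import Pool.Agent.TH286.J768
set_option autoImplicit false

/-! Job 908, part 3: the face permutation and markers. -/
namespace Pool.Agent.TH511.AM
open Pool.Agent.TH547.Arc
open Finset Equiv

/-- number of cycles on a set with an added fixed point -/
theorem ncy_fix {α : Type} [DecidableEq α] (σ : Perm α) (A : Finset α) (hA : ∀ s ∈ A, σ s ∈ A)
    {s : α} (hs : s ∉ A) (h : σ s = s) : ncy σ (insert s A) = ncy σ A + 1 := by
  classical
  rw [Pool.Agent.TH286.J768.ncy_eq σ (insert s A), Pool.Agent.TH286.J768.ncy_eq σ A,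
    Finset.image_insert]
  have h1 : ∀ t ∈ A, ¬ σ.SameCycle t s := fun t ht h' =>
    hs (Pool.Agent.TH286.J761.sc_mem σ A hA ht h')
  have h2 : ∀ t ∈ A, (insert s A).filter (fun u => σ.SameCycle t u) =
      A.filter (fun u => σ.SameCycle t u) := by
    intro t ht
    rw [Finset.filter_insert, if_neg (h1 t ht)]
  rw [Finset.card_insert_of_notMem, Finset.image_congr (fun t ht => h2 t ht)]
  rw [Finset.mem_image]
  rintro ⟨t, ht, he⟩
  have h3 : s ∈ (insert s A).filter (fun u => σ.SameCycle t u) := by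
    rw [he, Finset.mem_filter]
    exact ⟨Finset.mem_insert_self s A, Perm.SameCycle.refl _ _⟩
  exact h1 t ht (Finset.mem_filter.1 h3).2

section
variable {θ : Perm Sy} {Dd : Finset Sy} {y : List Sy} {s t : Sy}
  (hy : y.Nodup) (hinv : ∀ a ∈ y, a ∉ Dd → fp θ y a ∈ y ∧ fp θ y a ∉ Dd)
  (ht : t ∈ y) (htD : t ∉ Dd) (hs : s ∉ y) (hsD : s ∉ Dd) (hθ : θ s = s)

include hy ht hs in
theorem fp_insB : fp θ (insB t s y) = swap s t * fp θ y := by
  unfold fp
  rw [Pool.Agent.TH286.J762.formPerm_insB t s y hy ht hs, mul_assoc]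

include hs hθ in
theorem fp_s : fp θ y s = s := by
  unfold fp
  rw [Perm.mul_apply, hθ]
  exact List.formPerm_apply_of_notMem hs

include hy ht hs hθ in
theorem fp_insB_s : fp θ (insB t s y) s = t := by
  rw [fp_insB hy ht hs, Perm.mul_apply, fp_s hs hθ, swap_apply_left]

include ht hsD in
theorem insB_set : (insB t s y).toFinset \ Dd = insert s (y.toFinset \ Dd) := by
  ext a
  rw [mem_insert, mem_sdiff, mem_sdiff, List.mem_toFinset, List.mem_toFinset, insB_mem]
  constructor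
  · rintro ⟨h | h, h2⟩
    · exact Or.inr ⟨h, h2⟩
    · exact Or.inl h.1
  · rintro (h | h)
    · exact ⟨Or.inr ⟨h, ht⟩, h ▸ hsD⟩
    · exact ⟨Or.inl h.1, h.2⟩

include hinv in
theorem invA : ∀ a ∈ y.toFinset \ Dd, fp θ y a ∈ y.toFinset \ Dd := by
  intro a ha
  rw [mem_sdiff, List.mem_toFinset] at ha ⊢
  exact hinv a ha.1 ha.2

theorem memA {a : Sy} (ha : a ∈ y) (haD : a ∉ Dd) : a ∈ y.toFinset \ Dd := by
  rw [mem_sdiff, List.mem_toFinset]
  exact ⟨ha, haD⟩

include hs in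
theorem s_notA : s ∉ y.toFinset \ Dd := by
  rw [mem_sdiff, List.mem_toFinset]
  exact fun h => hs h.1

include hinv hs hθ in
theorem invA' : ∀ a ∈ insert s (y.toFinset \ Dd), fp θ y a ∈ insert s (y.toFinset \ Dd) := by
  intro a ha
  rcases Finset.mem_insert.1 ha with rfl | ha
  · rw [fp_s hs hθ]
    exact Finset.mem_insert_self _ _
  · exact Finset.mem_insert_of_mem (invA hinv a ha)

include hinv ht htD hs in
theorem s_far : ¬ (fp θ y).SameCycle s t := fun h =>
  s_notA (Dd := Dd) hs (Pool.Agent.TH286.J761.sc_mem _ _ (invA hinv) (memA ht htD) h.symm)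

include hy hinv ht htD hs hsD hθ

theorem inv_insB : ∀ a ∈ insB t s y, a ∉ Dd →
    fp θ (insB t s y) a ∈ insB t s y ∧ fp θ (insB t s y) a ∉ Dd := by
  intro a ha haD
  have h1 : a ∈ (insB t s y).toFinset \ Dd := memA ha haD
  rw [insB_set ht hsD] at h1
  have h2 := Pool.Agent.TH286.J761.swap_inv (fp θ y) _ (invA' hinv hs hθ)
    (Finset.mem_insert_self s _) (Finset.mem_insert_of_mem (memA ht htD)) a h1
  rw [← fp_insB hy ht hs, ← insB_set ht hsD, mem_sdiff, List.mem_toFinset] at h2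
  exact h2

theorem nf_insB : nf θ Dd (insB t s y) = nf θ Dd y := by
  unfold nf
  rw [insB_set ht hsD, fp_insB hy ht hs]
  have h1 := Pool.Agent.TH286.J761.ncy_merge (fp θ y) _ (invA' hinv hs hθ)
    (Finset.mem_insert_self s _) (Finset.mem_insert_of_mem (memA ht htD)) (s_far hinv ht htD hs)
  rw [ncy_fix (fp θ y) _ (invA hinv) (s_notA hs) (fp_s hs hθ)] at h1
  omega

theorem sc_insB {a b : Sy} (ha : a ∈ y) (haD : a ∉ Dd) (hb : b ∈ y) (hbD : b ∉ Dd) :
    (fp θ (insB t s y)).SameCycle a b ↔ (fp θ y).SameCycle a b := by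
  rw [fp_insB hy ht hs, Pool.Agent.TH286.J761.sc_merge (fp θ y) _ (invA' hinv hs hθ)
    (Finset.mem_insert_self s _) (Finset.mem_insert_of_mem (memA ht htD)) (s_far hinv ht htD hs)]
  have h1 : ∀ {u : Sy}, u ∈ y → u ∉ Dd → ¬ (fp θ y).SameCycle s u := fun hu huD =>
    s_far hinv hu huD hs
  constructor
  · rintro (h | ⟨h2 | h2, h3 | h3⟩)
    · exact h
    · exact absurd h2 (h1 ha haD)
    · exact absurd h2 (h1 ha haD)
    · exact absurd h3 (h1 hb hbD)
    · exact h2.symm.trans h3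
  · exact Or.inl

end

section
variable {θ : Perm Sy} {Dd : Finset Sy} {x : List Sy} {m p : Sy}
  (hinv : ∀ a ∈ x, a ∉ Dd → fp θ x a ∈ x ∧ fp θ x a ∉ Dd)
  (hm : m ∈ x) (hmD : m ∉ Dd) (hp : p ∈ x) (hpD : p ∉ Dd)

theorem fp_mul : fp (θ * swap m p) x = fp θ x * swap m p := by
  unfold fp
  rw [mul_assoc]

theorem fp_mul' : fp (θ * swap m p) x = swap (fp θ x m) (fp θ x p) * fp θ x := by
  rw [fp_mul, ← Equiv.mul_swap_eq_swap_mul]

include hinv hm hmD hp hpD

theorem inv_mul : ∀ a ∈ x, a ∉ Dd →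
    fp (θ * swap m p) x a ∈ x ∧ fp (θ * swap m p) x a ∉ Dd := by
  intro a ha haD
  rw [fp_mul, Perm.mul_apply]
  by_cases h1 : a = m
  · rw [h1, swap_apply_left]
    exact hinv p hp hpD
  · by_cases h2 : a = p
    · rw [h2, swap_apply_right]
      exact hinv m hm hmD
    · rw [swap_apply_of_ne_of_ne h1 h2]
      exact hinv a ha haD

theorem nf_mul_same (hne : m ≠ p) (h : (fp θ x).SameCycle m p) :
    nf (θ * swap m p) Dd x = nf θ Dd x + 1 := by
  unfold nf
  rw [fp_mul']
  exact Pool.Agent.TH286.J761.ncy_split (fp θ x) _ (invA hinv) (invA hinv _ (memA hm hmD))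
    (invA hinv _ (memA hp hpD)) (fun h' => hne ((fp θ x).injective h'))
    (Perm.sameCycle_apply_left.2 (Perm.sameCycle_apply_right.2 h))

theorem nf_mul_diff (h : ¬ (fp θ x).SameCycle m p) :
    nf (θ * swap m p) Dd x + 1 = nf θ Dd x := by
  unfold nf
  rw [fp_mul']
  exact Pool.Agent.TH286.J761.ncy_merge (fp θ x) _ (invA hinv) (invA hinv _ (memA hm hmD))
    (invA hinv _ (memA hp hpD))
    (fun h' => h (Perm.sameCycle_apply_left.1 (Perm.sameCycle_apply_right.1 h')))

end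

end Pool.Agent.TH511.AM
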