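import Pool.Agent.TH511.AM.Hm
import Pool.Agent.TH511.AM.Core
set_option autoImplicit false

/-! Job 908, part 6: one marked point. -/
namespace Pool.Agent.TH511.AM
open Pool.Agent.TH547.Arc Pool.Agent.TH286.J846 Pool.Agent.TH628.J873 Pool.Agent.TH110.J874
open Finset Equiv

theorem own_self' {μ x : List Sy} {s : Sy} (hx : x.Nodup) (h1 : s ∈ μ) (h2 : s ∈ x) :
    own μ x s = some s := by
  obtain ⟨u, v, rfl⟩ := List.append_of_mem h2
  rw [own_app (fun h => (List.nodup_append.1 hx).2.2 _ h _ (by simp) rfl),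
    List.find?_cons_of_pos (by simpa using h1)]

section
variable {θ : Perm Sy} {μ : PW} {p : Sy} {Dd : Finset Sy} (hE : Env θ μ {p} Dd)
include hE

/-- removal of an additional marker -/
theorem del_blk {j : ℕ} (hj : mr j ∉ μ.x) (hθj : θ (mr j) = mr j) {v : PW}
    (hv : OvP (insM p j μ) {p, mr j} v) :
    OvP μ {p} (delM j v) ∧ nf θ Dd (delM j v).x = nf θ Dd v.x := by
  obtain ⟨l1, l2, hd⟩ := exists_dec (pmem hE)
  obtain ⟨B1, B2, hx, hB1, hB2⟩ := (hd.ov2 hj).1 hv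
  have hnd := v.nd
  have e4 : l1 ++ (B1 ++ mr j :: (B2 ++ p :: l2)) = (l1 ++ B1) ++ mr j :: (B2 ++ p :: l2) := by
    simp
  rw [hx, e4] at hnd
  have f1 : ∀ l : List Sy, mr j ∉ l → l.filter (fun s => decide (s ≠ mr j)) = l := by
    intro l hl
    rw [List.filter_eq_self]
    intro s hs
    rw [decide_eq_true_iff]
    rintro rfl
    exact hl hs
  have k1 : mr j ∉ l1 ++ B1 := fun h => (List.nodup_append.1 hnd).2.2 _ h _ (by simp) rfl
  have k2 : mr j ∉ B2 ++ p :: l2 := (List.nodup_cons.1 (List.nodup_append.1 hnd).2.1).1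
  have x2 : (delM j v).x = (l1 ++ B1) ++ (B2 ++ p :: l2) := by
    show v.x.filter (fun s => decide (s ≠ mr j)) = _
    rw [hx, e4, List.filter_append, f1 _ k1, List.filter_cons_of_neg (by simp), f1 _ k2]
  have hY : OvP μ {p} (delM j v) := by
    refine hd.ov1.2 ⟨B1 ++ B2, ?_, ?_⟩
    · rw [x2]; simp
    · intro s hs
      rcases List.mem_append.1 hs with h | h
      · exact hB1 s h
      · exact hB2 s h
  refine ⟨hY, ?_⟩
  obtain ⟨t, V, htV, htD⟩ : ∃ t V, B2 ++ p :: l2 = t :: V ∧ t ∉ Dd := by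
    rcases B2 with _ | ⟨t, B2⟩
    · exact ⟨p, _, rfl, pD hE⟩
    · refine ⟨t, _, rfl, fun h => ?_⟩
      exact (hB2 t (by simp)).1 (hE.dsub t h)
  have hnd2 := (delM j v).nd
  rw [x2, htV] at hnd2
  have x3 : v.x = insB t (mr j) (delM j v).x := by
    rw [x2, htV, insB_split _ (fun h => (List.nodup_append.1 hnd2).2.2 _ h _ (by simp) rfl)
      (List.nodup_cons.1 (List.nodup_append.1 hnd2).2.1).1, hx, e4, htV]
  rw [x3]
  symm
  exact nf_insB (delM j v).nd (Env.fp_inv hE hY) (by rw [x2, htV]; simp) htD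
    (fun h => (mem_delM.1 h).2 rfl) (mrD hE hj) hθj

/-- insertion of a marker before `p` -/
theorem ins_blk {n : ℕ} (hn : mr n ∉ μ.x) (hθn : θ (mr n) = mr n) {X : PW}
    (hX : OvP μ {p} X) : OvP (insM p n μ) {p, mr n} (insM p n X) ∧
      nf θ Dd (insM p n X).x = nf θ Dd X.x ∧
      nf (θ * swap (mr n) p) Dd (insM p n X).x = nf θ Dd X.x + 1 ∧ mr n ∉ X.x := by
  obtain ⟨l1, l2, hd⟩ := exists_dec (pmem hE)
  obtain ⟨B, hx, hB⟩ := hd.ov1.1 hX
  have hnX : mr n ∉ X.x := fun h => hn (hX.2.1 n h)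
  have hpX : p ∈ X.x := by rw [hx]; simp
  have e1 : l1 ++ (B ++ p :: l2) = (l1 ++ B) ++ p :: l2 := by simp
  have hnd := X.nd
  rw [hx, e1] at hnd
  have x2 : (insM p n X).x = l1 ++ (B ++ mr n :: ([] ++ p :: l2)) := by
    rw [insM_x hnX, hx, e1, insB_split _
      (fun h => (List.nodup_append.1 hnd).2.2 _ h _ (by simp) rfl) hd.h2]
    simp
  have hov : OvP (insM p n μ) {p, mr n} (insM p n X) :=
    (hd.ov2 hn).2 ⟨B, [], x2, hB, by simp⟩
  have iv := Env.fp_inv hE hX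
  have q1 : nf θ Dd (insM p n X).x = nf θ Dd X.x := by
    rw [insM_x hnX]
    exact nf_insB X.nd iv hpX (pD hE) hnX (mrD hE hn) hθn
  refine ⟨hov, q1, ?_, hnX⟩
  rw [← q1]
  have iv' := Env.fp_inv (Env_ins hE hn hθn) hov
  refine nf_mul_same iv' ((mem_insM hpX).2 (Or.inr rfl)) (mrD hE hn)
    ((mem_insM hpX).2 (Or.inl hpX)) (pD hE) (nep hE hn) ?_
  have h1 := Pool.Agent.TH286.J761.sc_step (fp θ (insM p n X).x) (mr n)
  rw [insM_x hnX] at h1 ⊢
  rwa [fp_insB_s X.nd hpX hnX hθn] at h1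

/-- the insertion of an arc before the marker and before `p` -/
theorem ins_nf {n : ℕ} (hn : mr n ∉ μ.x) (hθn : θ (mr n) = mr n) {X : PW}
    (hX : OvP (insM p n μ) {p, mr n} X) {b : ℕ} (hb : b ∉ X.ord) (hbμ : b ∉ μ.ord) :
    OvP (insM p n μ) {p, mr n} (insP (mr n) p b X) ∧
      nf θ Dd (insP (mr n) p b X).x = nf (θ * swap (mr n) p) Dd X.x := by
  obtain ⟨m1, m2, m3⟩ := pmem_of hE hn hX
  have iv := Env.fp_inv (Env_ins hE hn hθn) hX
  have hD := dsub_of hE hX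
  have f0 : θ (en b false) = en b true := hE.flip b hbμ false
  have f1 : θ (en b true) = en b false := hE.flip b hbμ true
  constructor
  · refine (OvP.insP hX m2 m1 (Or.inr m3) hb (by rwa [ord_insM]) ?_ ?_).1
    · exact ⟨mr n, by simp, own_self' X.nd ((mem_insM (pmem hE)).2 (Or.inr rfl)) m2⟩
    · exact ⟨p, by simp, own_self' X.nd ((mem_insM (pmem hE)).2 (Or.inl (pmem hE))) m1⟩
  · by_cases h : (fp θ X.x).SameCycle (mr n) p
    · rw [nf_mul_same iv m2 (mrD hE hn) m1 (pD hE) (nep hE hn) h]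
      exact Pool.Agent.TH817.J872.insP_nf_split iv hD f0 f1 m2 (mrD hE hn) m1 (pD hE)
        (Or.inr m3) hb h
    · have r1 := Pool.Agent.TH817.J872.insP_nf_merge iv hD f0 f1 m2 (mrD hE hn) m1 (pD hE)
        (Or.inr m3) hb h
      have r2 := nf_mul_diff iv m2 (mrD hE hn) m1 (pD hE) h
      omega

theorem offp {a : ℕ} (ha : a ∉ μ.ord) : offA a p = true := by
  rw [offA_iff]
  constructor
  · intro h
    exact ha ((PW.mem_ord' false).2 (h ▸ pmem hE))
  · intro h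
    exact ha ((PW.mem_ord' true).2 (h ▸ pmem hE))

end

theorem R0_iff {θ : Perm Sy} {μ : PW} {p : Sy} {Dd : Finset Sy} {c N0 : ℕ} {X : PW} :
    R0 θ μ p Dd c N0 X ↔ ∃ j, N0 ≤ j ∧ OvP (insM p j μ) {p, mr j} X ∧
      nf θ Dd X.x + X.ord.length = c ∧ ¬ (fp θ X.x).SameCycle p (mr j) := by
  unfold R0 RJ PA
  simp only [muJ_one, mrs_one, Finset.mem_singleton, forall_eq]

theorem rn_length (X : PW) (π : Perm ℕ) : (X.rn π).ord.length = X.ord.length := by
  rw [PW.ord_rn, List.length_map]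

/-- the case of one allowed block -/
theorem one_marked {θ : Perm Sy} {μ : PW} {p : Sy} {Dd : Finset Sy} {c N0 : ℕ}
    (hE : Env θ μ {p} Dd) (hθ : ∀ n, mr n ∉ μ.x → θ (mr n) = mr n)
    (hN : ∀ n, N0 ≤ n → mr n ∉ μ.x) (hN1 : ∃ n1 < N0, mr n1 ∉ μ.x)
    (hpar : (nf θ Dd μ.x + μ.ord.length) % 2 = c % 2)
    (hlift : ∀ (i : ℕ) (z : W.Q (W.nm μ) →₀ ℤ), i + μ.ord.length + 1 < c →
      z ∈ Sys.Ch (S := W) (W.nm μ) (PT θ μ {p} Dd c) i →
      Sys.D (S := W) (W.nm μ) (PT θ μ {p} Dd c) z = 0 →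
      ∃ w ∈ Sys.Ch (S := W) (W.nm μ) (R0 θ μ p Dd c N0) i,
        Sys.push (S := W) (W.nm μ) (R0 θ μ p Dd c N0) (clrM N0) w = z ∧
        Sys.D (S := W) (W.nm μ) (R0 θ μ p Dd c N0) w = 0)
    {i : ℕ} (hi : i + μ.ord.length + 1 < c) :
    Sys.Ex (S := W) (W.nm μ) (PN θ μ {p} Dd c) i := by
  obtain ⟨n, hnN, hn⟩ := hN1
  have hθn := hθ n hn
  have hE1 := Env_ins hE hn hθn
  have hE2 := Env_ins' hE hn hθn
  have hnm : W.nm (insM p n μ) = W.nm μ := nm_ins n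
  have hord : ∀ {a : ℕ}, a ∉ W.nm μ → a ∉ μ.ord := fun h h' => h (mem_nmW.2 h')
  have hfix : ∀ π : Perm ℕ, (∀ a ∈ W.nm μ, π a = a) → rnS π p = p := fun π hπ =>
    (rnS_fix hπ (Finset.Subset.refl _)).1 p (pmem hE)
  -- facts on auxiliary markers
  have hjf : ∀ {j : ℕ}, N0 ≤ j → mr j ∉ μ.x ∧ j ≠ n ∧ θ (mr j) = mr j := fun {j} hj =>
    ⟨hN j hj, fun h => by omega, hθ j (hN j hj)⟩
  have hJJ : ∀ {j : ℕ} {v : PW}, N0 ≤ j → OvP (insM p j μ) {p, mr j} v → JJ N0 v = {j} := by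
    intro j v hj hv
    ext k
    rw [mem_JJ, Finset.mem_singleton]
    constructor
    · rintro ⟨h1, h2⟩
      rcases (mem_insM (pmem hE)).1 (hv.2.1 k h1) with h | h
      · exact absurd h (hN k h2)
      · rwa [Sy.mr.injEq] at h
    · rintro rfl
      exact ⟨(pmem_of hE (hjf hj).1 hv).2.1, hj⟩
  have hclr : ∀ {j : ℕ} {v : PW}, N0 ≤ j → OvP (insM p j μ) {p, mr j} v →
      clrM N0 v = delM j v := by
    intro j v hj hv
    apply PW.ext
    show v.x.filter (nax N0) = v.x.filter (fun s => decide (s ≠ mr j))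
    refine List.filter_congr fun s hs => ?_
    rcases s with k | ⟨a, e⟩
    · have h1 : k ∈ JJ N0 v ↔ k = j := by rw [hJJ hj hv, Finset.mem_singleton]
      rw [mem_JJ] at h1
      show decide (k < N0) = decide (mr k ≠ mr j)
      rw [decide_eq_decide, ne_eq, Sy.mr.injEq, ← h1, not_and, not_le]
      exact ⟨fun h _ => h, fun h => h hs⟩
    · rfl
  have hsup : ∀ {j : ℕ} {v : PW}, N0 ≤ j → OvP (insM p j μ) {p, mr j} v →
      (JJ N0 v).sup id = j := by
    intro j v hj hv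
    rw [hJJ hj hv, Finset.sup_singleton, id]
  have hR0v : ∀ {j : ℕ} {v : PW}, N0 ≤ j → OvP (insM p j μ) {p, mr j} v →
      (R0 θ μ p Dd c N0 v ↔
        (nf θ Dd v.x + v.ord.length = c ∧ ¬ (fp θ v.x).SameCycle p (mr j))) := by
    intro j v hj hv
    rw [R0_iff]
    constructor
    · rintro ⟨k, hk, hvk, h1, h2⟩
      have : k = j := by rw [← hsup hk hvk, hsup hj hv]
      subst this
      exact ⟨h1, h2⟩
    · rintro ⟨h1, h2⟩
      exact ⟨j, hj, hv, h1, h2⟩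
  have hparv : ∀ {j : ℕ} {v : PW}, N0 ≤ j → OvP (insM p j μ) {p, mr j} v →
      (nf θ Dd v.x + v.ord.length) % 2 = c % 2 := by
    intro j v hj hv
    obtain ⟨j1, j2, j3⟩ := hjf hj
    rw [Env.parity (Env_ins hE j1 j3) hv, ord_insM, ← hpar, insM_x j1,
      nf_insB μ.nd (Env.fp_inv hE (OvP.self hE)) (pmem hE) (pD hE) j1 (mrD hE j1) j3]
  have hN1N : ∀ X, PN (θ * swap (mr n) p) (insM p n μ) {p, mr n} Dd (c - 1) X →
      PN θ (insM p n μ) {p, mr n} Dd c X := by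
    rintro X ⟨h1, h2⟩
    refine ⟨h1, ?_⟩
    obtain ⟨m1, m2, m3⟩ := pmem_of hE hn h1
    have iv := Env.fp_inv hE1 h1
    by_cases h : (fp θ X.x).SameCycle (mr n) p
    · have := nf_mul_same iv m2 (mrD hE hn) m1 (pD hE) (nep hE hn) h
      omega
    · have := nf_mul_diff iv m2 (mrD hE hn) m1 (pD hE) h
      omega
  -- the tight part
  have hTY : ∀ {j : ℕ} {v : PW} {b : ℕ}, N0 ≤ j → OvP (insM p j μ) {p, mr j} v → b ∉ v.ord →
      b ∉ μ.ord → ((PN θ (insM p n μ) {p, mr n} Dd c (Hf p n j b v) ∧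
        ¬ PN (θ * swap (mr n) p) (insM p n μ) {p, mr n} Dd (c - 1) (Hf p n j b v)) ↔
        (nf θ Dd v.x + v.ord.length = c ∧ ¬ (fp θ v.x).SameCycle p (mr j))) := by
    intro j v b hj hv hb hbμ
    obtain ⟨j1, j2, j3⟩ := hjf hj
    obtain ⟨h1, h2, h3⟩ := Hf_nf hE j1 hn j2 j3 hθn hv hb hbμ
    have h4 := Hf_ov hE j1 hn j2 hv hb hbμ
    have h5 := (Hf_ord hE j1 hn j2 hv hb).2
    have h6 := hparv hj hv
    unfold PN
    rw [h1, h5]
    by_cases h : (fp θ v.x).SameCycle p (mr j)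
    · have := h3 h
      constructor
      · rintro ⟨⟨-, k1⟩, k2⟩
        exact absurd ⟨h4, by omega⟩ k2
      · rintro ⟨-, k⟩
        exact absurd h k
    · have := h2 h
      constructor
      · rintro ⟨⟨-, k1⟩, k2⟩
        have k3 : ¬ (nf θ Dd v.x + (v.ord.length + 1) ≤ c - 1) := fun k => k2 ⟨h4, k⟩
        exact ⟨by omega, h⟩
      · rintro ⟨k, -⟩
        exact ⟨⟨h4, by omega⟩, fun k2 => by have := k2.2; omega⟩
  -- insertion of the marker into words over `μ`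
  have hi1T : ∀ X, PN θ μ {p} Dd c X →
      ((PN θ (insM p n μ) {p, mr n} Dd c (insM p n X) ∧
        ¬ PN (θ * swap (mr n) p) (insM p n μ) {p, mr n} Dd (c - 1) (insM p n X)) ↔
        PT θ μ {p} Dd c X) := by
    rintro X ⟨hX, hXc⟩
    obtain ⟨h1, h2, h3, h4⟩ := ins_blk hE hn hθn hX
    have h6 := Env.parity hE hX
    rw [hpar] at h6
    unfold PN PT
    rw [h2, h3, ord_insM]
    constructor
    · rintro ⟨⟨-, k1⟩, k2⟩
      have k3 : ¬ (nf θ Dd X.x + 1 + X.ord.length ≤ c - 1) := fun k => k2 ⟨h1, k⟩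
      exact ⟨hX, by omega⟩
    · rintro ⟨-, k⟩
      exact ⟨⟨h1, by omega⟩, fun k2 => by have := k2.2; omega⟩
  have hTN : ∀ X, PT θ μ {p} Dd c X → PN θ μ {p} Dd c X := fun X h => ⟨h.1, h.2.le⟩
  have hclrT : ∀ X, R0 θ μ p Dd c N0 X → PT θ μ {p} Dd c (clrM N0 X) := by
    intro X hX
    obtain ⟨j, hj, hv, h1, h2⟩ := R0_iff.1 hX
    obtain ⟨k1, k2⟩ := del_blk hE (hjf hj).1 (hjf hj).2.2 hv
    rw [hclr hj hv]
    exact ⟨k1, by rw [k2, ord_delM]; exact h1⟩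
  -- invariance
  have iN : Sys.Inv (S := W) (W.nm μ) (PN θ μ {p} Dd c) := PN_inv hE c
  have iT : Sys.Inv (S := W) (W.nm μ) (PT θ μ {p} Dd c) := by
    intro π hπ (X : PW) hX
    refine ⟨OvP.rn hX.1 hπ, ?_⟩
    show nf θ Dd (X.rn π).x + (X.rn π).ord.length = c
    rw [Env.rn_nf hE hπ, rn_length]
    exact hX.2
  have iR0 : Sys.Inv (S := W) (W.nm μ) (R0 θ μ p Dd c N0) := by
    rintro π hπ (X : PW) ⟨j, hj, hX⟩
    refine ⟨j, hj, ?_⟩
    obtain ⟨j1, j2, j3⟩ := hjf hj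
    have h1 := PA_inv (Env_ins hE j1 j3) c (B := p) ((mem_insM (pmem hE)).2 (Or.inl (pmem hE)))
      (A := {mr j}) (fun s hs => by
        rw [Finset.mem_singleton] at hs
        rw [hs]
        exact (mem_insM (pmem hE)).2 (Or.inr rfl))
    rw [nm_ins] at h1
    unfold RJ at hX ⊢
    rw [muJ_one, mrs_one] at hX ⊢
    exact h1 π hπ X hX
  have iNp : Sys.Inv (S := W) (W.nm μ) (PN θ (insM p n μ) {p, mr n} Dd c) := by
    have := PN_inv hE1 c
    rwa [hnm] at this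
  have iN1 : Sys.Inv (S := W) (W.nm μ)
      (PN (θ * swap (mr n) p) (insM p n μ) {p, mr n} Dd (c - 1)) := by
    have := PN_inv hE2 (c - 1)
    rwa [hnm] at this
  have iTp : Sys.Inv (S := W) (W.nm μ) (fun X => PN θ (insM p n μ) {p, mr n} Dd c X ∧
      ¬ PN (θ * swap (mr n) p) (insM p n μ) {p, mr n} Dd (c - 1) X) := iNp.and iN1.not
  have cNp : Sys.Cvx (S := W) (W.nm μ) (PN θ (insM p n μ) {p, mr n} Dd c) := by
    have := PN_cvx hE1 c
    rwa [hnm] at this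
  -- deletions
  have dN : ∀ X, PN θ μ {p} Dd c X → ∀ a ∈ W.nm X \ W.nm μ, PN θ μ {p} Dd c (W.dl X a) := by
    intro (X : PW) hX a ha
    rw [Finset.mem_sdiff] at ha
    exact PN_dl hE hX (mem_nmW.1 ha.1) (hord ha.2)
  have dNp : ∀ X, PN θ (insM p n μ) {p, mr n} Dd c X → ∀ a ∈ W.nm X \ W.nm μ,
      PN θ (insM p n μ) {p, mr n} Dd c (W.dl X a) := by
    intro (X : PW) hX a ha
    rw [Finset.mem_sdiff] at ha
    exact PN_dl hE1 hX (mem_nmW.1 ha.1) (by rw [ord_insM]; exact hord ha.2)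
  have dN1 : ∀ X, PN (θ * swap (mr n) p) (insM p n μ) {p, mr n} Dd (c - 1) X →
      ∀ a ∈ W.nm X \ W.nm μ,
      PN (θ * swap (mr n) p) (insM p n μ) {p, mr n} Dd (c - 1) (W.dl X a) := by
    intro (X : PW) hX a ha
    rw [Finset.mem_sdiff] at ha
    exact PN_dl hE2 hX (mem_nmW.1 ha.1) (by rw [ord_insM]; exact hord ha.2)
  have dT : ∀ X, PN θ μ {p} Dd c X → ¬ PT θ μ {p} Dd c X → ∀ a ∈ W.nm X \ W.nm μ,
      ¬ PT θ μ {p} Dd c (W.dl X a) := by
    intro (X : PW) hX hXT a ha hT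
    rw [Finset.mem_sdiff] at ha
    have h1 : nf θ Dd X.x + X.ord.length < c :=
      lt_of_le_of_ne hX.2 (fun h => hXT ⟨hX.1, h⟩)
    have h2 := PN_dl hE (c := nf θ Dd X.x + X.ord.length) ⟨hX.1, le_rfl⟩ (mem_nmW.1 ha.1)
      (hord ha.2)
    have h3 := h2.2
    have h4 : nf θ Dd (X.dl a).x + (X.dl a).ord.length = c := hT.2
    omega
  -- natural maps
  have nat_i1 : Sys.Nat (S := W) (W.nm μ) (PN θ μ {p} Dd c) (insM p n) := by
    refine ⟨fun (X : PW) _ => ord_insM p n X, ?_, ?_⟩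
    · intro (X : PW) _ a ha
      rw [Finset.mem_sdiff] at ha
      exact dl_insM n X (offp hE (hord ha.2))
    · intro (X : PW) _ π hπ
      show insM p n (X.rn π) = (insM p n X).rn π
      rw [rn_insM, hfix π hπ]
  have nat_r : Sys.Nat (S := W) (W.nm μ) (PN θ (insM p n μ) {p, mr n} Dd c) (delM n) :=
    ⟨fun X _ => ord_delM n X, fun X _ a _ => dl_delM n X a,
      fun X _ π _ => (rn_delM n X π).symm⟩
  have nat_clr : Sys.Nat (S := W) (W.nm μ) (R0 θ μ p Dd c N0) (clrM N0) :=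
    ⟨fun X _ => ord_clrM N0 X, fun X _ a _ => dl_clrM N0 X a,
      fun X _ π _ => (rn_clrM N0 X π).symm⟩
  have nat_g : Sys.Nat (S := W) (W.nm μ) (R0 θ μ p Dd c N0)
      (fun X => insM p n (clrM N0 X)) := by
    refine ⟨fun (X : PW) _ => ?_, ?_, ?_⟩
    · show (insM p n (clrM N0 X)).ord = X.ord
      rw [ord_insM, ord_clrM]
    · intro (X : PW) _ a ha
      rw [Finset.mem_sdiff] at ha
      show (insM p n (clrM N0 X)).dl a = insM p n (clrM N0 (X.dl a))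
      rw [dl_insM n _ (offp hE (hord ha.2)), dl_clrM]
    · intro (X : PW) _ π hπ
      show insM p n (clrM N0 (X.rn π)) = (insM p n (clrM N0 X)).rn π
      rw [rn_insM, hfix π hπ, rn_clrM]
  -- the null-homotopy
  have hNH : Sys.NH (S := W) (W.nm μ) (PN θ (insM p n μ) {p, mr n} Dd c)
      (PN (θ * swap (mr n) p) (insM p n μ) {p, mr n} Dd (c - 1)) i := by
    refine Pool.Agent.TH304.J770.NH_of_ins iNp iN1 hN1N (fun X hX a ha _ => dN1 X hX a ha)
      (fun b X => insP (mr n) p b X) ?_ ?_ ?_ ?_ ?_ ?_ i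
    · intro (X : PW) b hX hb _
      obtain ⟨m1, m2, m3⟩ := pmem_of hE hn hX.1
      exact insP_nm m2 m1 (Or.inr m3) (fun h => hb (mem_nmW.2 h))
    · intro (X : PW) b hX hb _
      obtain ⟨m1, m2, m3⟩ := pmem_of hE hn hX.1
      exact insP_dl_self m2 m1 (Or.inr m3) (fun h => hb (mem_nmW.2 h))
    · intro (X : PW) b hX hb hbF
      obtain ⟨m1, m2, m3⟩ := pmem_of hE hn hX.1
      have hb' : b ∉ X.ord := fun h => hb (mem_nmW.2 h)
      obtain ⟨h1, h2⟩ := ins_nf hE hn hθn hX.1 hb' (hord hbF)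
      refine ⟨h1, ?_⟩
      have h3 := hX.2
      show nf θ Dd (insP (mr n) p b X).x + (insP (mr n) p b X).ord.length ≤ c
      rw [h2, insP_length m2 m1 (Or.inr m3) hb']
      omega
    · intro (X : PW) b hX hb _ a ha _
      obtain ⟨m1, m2, m3⟩ := pmem_of hE hn hX.1
      rw [Finset.mem_sdiff] at ha
      exact insP_dl m2 m1 (Or.inr m3) (fun h => hb (mem_nmW.2 h))
        (fun h => hb (h ▸ ha.1)) (offA_mr a n) (offp hE (hord ha.2))
    · intro (X : PW) b hX _ _ a ha _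
      exact dNp X (hN1N X hX) a ha
    · intro (X : PW) b hX hb _ π hπ
      obtain ⟨m1, m2, m3⟩ := pmem_of hE hn hX.1
      exact insP_rn m2 m1 (Or.inr m3) (fun h => hb (mem_nmW.2 h)) π (rnS_mr π n) (hfix π hπ)
  -- the natural insertion
  have hins : Sys.NatIns (S := W) (W.nm μ) (R0 θ μ p Dd c N0)
      (fun X => PN θ (insM p n μ) {p, mr n} Dd c X ∧
        ¬ PN (θ * swap (mr n) p) (insM p n μ) {p, mr n} Dd (c - 1) X)
      (fun b X => Hf p n ((JJ N0 X).sup id) b X) (fun X => insM p n (clrM N0 X)) := by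
    refine ⟨?_, ?_, ?_, ?_, ?_, ?_, ?_⟩
    · intro (X : PW) b hX hb _
      obtain ⟨j, hj, hv, -, -⟩ := R0_iff.1 hX
      show W.nm (Hf p n ((JJ N0 X).sup id) b X) = insert b (W.nm X)
      rw [hsup hj hv]
      exact (Hf_ord hE (hjf hj).1 hn (hjf hj).2.1 hv (fun h => hb (mem_nmW.2 h))).1
    · intro (X : PW) b hX hb _
      obtain ⟨j, hj, hv, -, -⟩ := R0_iff.1 hX
      have hb' : b ∉ (insM p n X).ord := by
        rw [ord_insM]
        exact fun h => hb (mem_nmW.2 h)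
      obtain ⟨s1, s2, s3⟩ := side hE (hjf hj).1 hn (hjf hj).2.1 hv
      show (Hf p n ((JJ N0 X).sup id) b X).dl b = insM p n (clrM N0 X)
      rw [hsup hj hv, hclr hj hv]
      unfold Hf
      rw [dl_delM, insP_dl_self s1 s2 (Or.inr s3) hb']
      apply PW.ext
      have h1 := mr_notMem hE hn (hjf hj).2.1 hv
      have h2 : mr n ∉ (delM j X).x := fun h => h1 (mem_delM.1 h).1
      rw [insM_x h2]
      show (insM p n X).x.filter (fun s => decide (s ≠ mr j)) =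
        insB p (mr n) (X.x.filter (fun s => decide (s ≠ mr j)))
      rw [insM_x h1, insB_filter_pos]
      · rw [decide_eq_true_iff]
        exact fun h => nep hE (hjf hj).1 h.symm
      · rw [decide_eq_true_iff, ne_eq, Sy.mr.injEq]
        exact fun h => (hjf hj).2.1 h.symm
    · intro (X : PW) b hX hb hbF
      obtain ⟨j, hj, hv, h1, h2⟩ := R0_iff.1 hX
      show PN θ (insM p n μ) {p, mr n} Dd c (Hf p n ((JJ N0 X).sup id) b X) ∧
        ¬ PN (θ * swap (mr n) p) (insM p n μ) {p, mr n} Dd (c - 1)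
          (Hf p n ((JJ N0 X).sup id) b X)
      rw [hsup hj hv]
      exact (hTY hj hv (fun h => hb (mem_nmW.2 h)) (hord hbF)).2 ⟨h1, h2⟩
    · intro (X : PW) hX
      exact (hi1T _ (hTN _ (hclrT X hX))).2 (hclrT X hX)
    · intro (X : PW) b hX hb _ a ha
      obtain ⟨j, hj, hv, -, -⟩ := R0_iff.1 hX
      have hb' : b ∉ (insM p n X).ord := by
        rw [ord_insM]
        exact fun h => hb (mem_nmW.2 h)
      obtain ⟨s1, s2, s3⟩ := side hE (hjf hj).1 hn (hjf hj).2.1 hv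
      rw [Finset.mem_sdiff] at ha
      show (Hf p n ((JJ N0 X).sup id) b X).dl a = Hf p n ((JJ N0 (X.dl a)).sup id) b (X.dl a)
      rw [JJ_dl, hsup hj hv]
      unfold Hf
      rw [dl_delM, insP_dl s1 s2 (Or.inr s3) hb' (fun h => hb (h ▸ ha.1)) (offA_mr a j)
        (offp hE (hord ha.2)), dl_insM n X (offp hE (hord ha.2))]
    · intro (X : PW) b hX hb hbF a ha
      obtain ⟨j, hj, hv, -, -⟩ := R0_iff.1 hX
      rw [Finset.mem_sdiff] at ha
      have hv' : OvP (insM p j μ) {p, mr j} (X.dl a) :=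
        OvP.dl hv (by rw [ord_insM]; exact hord ha.2)
      show (PN θ (insM p n μ) {p, mr n} Dd c (Hf p n ((JJ N0 (X.dl a)).sup id) b (X.dl a)) ∧
        ¬ PN (θ * swap (mr n) p) (insM p n μ) {p, mr n} Dd (c - 1)
          (Hf p n ((JJ N0 (X.dl a)).sup id) b (X.dl a))) ↔ R0 θ μ p Dd c N0 (X.dl a)
      rw [hsup hj hv', hR0v hj hv']
      refine hTY hj hv' ?_ (hord hbF)
      rw [PW.ord_dl]
      exact fun h => hb (mem_nmW.2 (List.mem_of_mem_erase h))
    · intro (X : PW) b hX hb _ π hπ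
      obtain ⟨j, hj, hv, -, -⟩ := R0_iff.1 hX
      have hb' : b ∉ (insM p n X).ord := by
        rw [ord_insM]
        exact fun h => hb (mem_nmW.2 h)
      obtain ⟨s1, s2, s3⟩ := side hE (hjf hj).1 hn (hjf hj).2.1 hv
      show (Hf p n ((JJ N0 X).sup id) b X).rn π =
        Hf p n ((JJ N0 (X.rn π)).sup id) (π b) (X.rn π)
      rw [JJ_rn, hsup hj hv]
      unfold Hf
      rw [rn_delM, insP_rn s1 s2 (Or.inr s3) hb' π (rnS_mr π j) (hfix π hπ), rn_insM,
        hfix π hπ]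
  refine Ex_core (S := W) (T := PT θ μ {p} Dd c) (R0 := R0 θ μ p Dd c N0)
    (Np := PN θ (insM p n μ) {p, mr n} Dd c)
    (N1 := PN (θ * swap (mr n) p) (insM p n μ) {p, mr n} Dd (c - 1))
    (Tp := fun X => PN θ (insM p n μ) {p, mr n} Dd c X ∧
      ¬ PN (θ * swap (mr n) p) (insM p n μ) {p, mr n} Dd (c - 1) X)
    (clr := clrM N0) (i1 := insM p n) (r := delM n) (g := fun X => insM p n (clrM N0 X))
    iN iT iR0 iNp iTp cNp dN dNp dN1 hTN hN1N (fun _ => Iff.rfl) dT hNH nat_i1 nat_r nat_clr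
    nat_g ?_ hi1T ?_ ?_ hclrT (fun _ _ => rfl) hins
    (fun z hz hDz => hlift i z hi hz hDz)
  · rintro (X : PW) ⟨hX, hXc⟩
    obtain ⟨h1, h2, -, -⟩ := ins_blk hE hn hθn hX
    refine ⟨h1, ?_⟩
    show nf θ Dd (insM p n X).x + (insM p n X).ord.length ≤ c
    rw [h2, ord_insM]
    exact hXc
  · rintro (X : PW) ⟨hX, hXc⟩
    obtain ⟨h1, h2⟩ := del_blk hE hn hθn hX
    refine ⟨h1, ?_⟩
    show nf θ Dd (delM n X).x + (delM n X).ord.length ≤ c
    rw [h2, ord_delM]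
    exact hXc
  · rintro (X : PW) ⟨hX, hXc⟩
    exact delM_insM p n (ins_blk hE hn hθn hX).2.2.2

end Pool.Agent.TH511.AM
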