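import Pool.Agent.TH511.AM.Mn
set_option autoImplicit false

/-! Job 908, part 5: the insertion of an arc at an auxiliary marker. -/
namespace Pool.Agent.TH511.AM
open Pool.Agent.TH547.Arc Pool.Agent.TH286.J846 Pool.Agent.TH628.J873 Pool.Agent.TH110.J874
open Finset Equiv

/-- insert `b` before the marker `mr j` and before `p`, insert the marker `mr n` before the second
end of `b` and remove the marker `mr j` -/
noncomputable def Hf (p : Sy) (n j b : ℕ) (X : PW) : PW :=
  delM j (insP (mr j) p b (insM p n X))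

section
variable {θ : Perm Sy} {μ : PW} {p : Sy} {Dd : Finset Sy} (hE : Env θ μ {p} Dd)
  {j n : ℕ} (hj : mr j ∉ μ.x) (hn : mr n ∉ μ.x) (hjn : j ≠ n) (hθj : θ (mr j) = mr j)
  (hθn : θ (mr n) = mr n) {v : PW} (hv : OvP (insM p j μ) {p, mr j} v)
include hE hj hn hjn hv

/-- the side conditions for the insertion -/
theorem side : mr j ∈ (insM p n v).x ∧ p ∈ (insM p n v).x ∧
    [mr j, p].Sublist (insM p n v).x := by
  obtain ⟨h1, h2, h3⟩ := pmem_of hE hj hv
  have h4 := mr_notMem hE hn hjn hv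
  refine ⟨(mem_insM h1).2 (Or.inl h2), (mem_insM h1).2 (Or.inl h1), ?_⟩
  rw [insM_x h4]
  exact h3.trans (insB_sub _ _ _)

theorem Hf_ord {b : ℕ} (hb : b ∉ v.ord) :
    W.nm (Hf p n j b v) = insert b (W.nm v) ∧ (Hf p n j b v).ord.length = v.ord.length + 1 := by
  obtain ⟨s1, s2, s3⟩ := side hE hj hn hjn hv
  have hb' : b ∉ (insM p n v).ord := by rwa [ord_insM]
  constructor
  · have h1 := insP_nm s1 s2 (Or.inr s3) hb'
    have h2 : W.nm (Hf p n j b v) = W.nm (insP (mr j) p b (insM p n v)) := by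
      show (Hf p n j b v).ord.toFinset = (insP (mr j) p b (insM p n v)).ord.toFinset
      unfold Hf
      rw [ord_delM]
    rw [h2, h1, nm_ins]
  · unfold Hf
    rw [ord_delM, insP_length s1 s2 (Or.inr s3) hb', ord_insM]

/-- the words in block form -/
theorem Hf_x {b : ℕ} (hb : b ∉ v.ord) {l1 l2 B1 B2 : List Sy} (hd : Dec p μ l1 l2)
    (hx : v.x = l1 ++ (B1 ++ mr j :: (B2 ++ p :: l2))) :
    (insP (mr j) p b (insM p n v)).x = l1 ++ (B1 ++ en b false :: mr j ::
      (B2 ++ mr n :: en b true :: p :: l2)) ∧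
    (Hf p n j b v).x = l1 ++ (B1 ++ en b false :: (B2 ++ mr n :: en b true :: p :: l2)) := by
  obtain ⟨s1, s2, s3⟩ := side hE hj hn hjn hv
  have hb' : b ∉ (insM p n v).ord := by rwa [ord_insM]
  have h4 := mr_notMem hE hn hjn hv
  have hnd := v.nd
  rw [hx] at hnd
  have e1 : l1 ++ (B1 ++ mr j :: (B2 ++ p :: l2)) = (l1 ++ B1 ++ mr j :: B2) ++ p :: l2 := by simp
  have hp1 : p ∉ l1 ++ B1 ++ mr j :: B2 := fun h => by
    rw [e1] at hnd
    exact (List.nodup_append.1 hnd).2.2 p h p (by simp) rfl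
  have x1 : (insM p n v).x = l1 ++ (B1 ++ mr j :: (B2 ++ mr n :: p :: l2)) := by
    rw [insM_x h4, hx, e1, insB_split _ hp1 hd.h2]
    simp
  have hnd1 := (insM p n v).nd
  rw [x1] at hnd1
  have e2 : l1 ++ (B1 ++ mr j :: (B2 ++ mr n :: p :: l2)) =
      (l1 ++ B1) ++ mr j :: (B2 ++ mr n :: p :: l2) := by simp
  rw [e2] at hnd1
  have hj1 : mr j ∉ l1 ++ B1 := fun h => (List.nodup_append.1 hnd1).2.2 _ h _ (by simp) rfl
  have hj2 : mr j ∉ B2 ++ mr n :: p :: l2 :=
    (List.nodup_cons.1 (List.nodup_append.1 hnd1).2.1).1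
  have x2 : insB (mr j) (en b false) (insM p n v).x =
      l1 ++ (B1 ++ en b false :: mr j :: (B2 ++ mr n :: p :: l2)) := by
    rw [x1, e2, insB_split _ hj1 hj2]
    simp
  have hpe : p ≠ en b false := by
    rintro h
    have : en b false ∈ (insM p n v).x := h ▸ s2
    exact hb' ((PW.mem_ord' false).2 this)
  have hpn : p ≠ mr n := fun h => nep hE hn h.symm
  have e3 : l1 ++ (B1 ++ en b false :: mr j :: (B2 ++ mr n :: p :: l2)) =
      (l1 ++ (B1 ++ en b false :: mr j :: (B2 ++ [mr n]))) ++ p :: l2 := by simp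
  have hp2 : p ∉ l1 ++ (B1 ++ en b false :: mr j :: (B2 ++ [mr n])) := by
    simp only [List.mem_append, List.mem_cons, List.not_mem_nil, or_false] at hp1 ⊢
    tauto
  have x3 : (insP (mr j) p b (insM p n v)).x = l1 ++ (B1 ++ en b false :: mr j ::
      (B2 ++ mr n :: en b true :: p :: l2)) := by
    rw [insP_x s1 s2 (Or.inr s3) hb']
    unfold ins2
    rw [x2, e3, insB_split _ hp2 hd.h2]
    simp
  refine ⟨x3, ?_⟩
  show (insP (mr j) p b (insM p n v)).x.filter (fun s => decide (s ≠ mr j)) = _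
  have f1 : ∀ l : List Sy, mr j ∉ l → l.filter (fun s => decide (s ≠ mr j)) = l := by
    intro l hl
    rw [List.filter_eq_self]
    intro s hs
    rw [decide_eq_true_iff]
    rintro rfl
    exact hl hs
  have hnd3 := (insP (mr j) p b (insM p n v)).nd
  rw [x3] at hnd3
  have e4 : l1 ++ (B1 ++ en b false :: mr j :: (B2 ++ mr n :: en b true :: p :: l2)) =
    (l1 ++ (B1 ++ [en b false])) ++ mr j :: (B2 ++ mr n :: en b true :: p :: l2) := by simp
  rw [e4] at hnd3
  have k1 : mr j ∉ l1 ++ (B1 ++ [en b false]) := fun h =>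
    (List.nodup_append.1 hnd3).2.2 _ h _ (by simp) rfl
  have k2 : mr j ∉ B2 ++ mr n :: en b true :: p :: l2 :=
    (List.nodup_cons.1 (List.nodup_append.1 hnd3).2.1).1
  rw [x3, e4, List.filter_append, f1 _ k1, List.filter_cons_of_neg (by simp), f1 _ k2]
  simp

theorem Hf_ov {b : ℕ} (hb : b ∉ v.ord) (hbμ : b ∉ μ.ord) :
    OvP (insM p n μ) {p, mr n} (Hf p n j b v) := by
  obtain ⟨l1, l2, hd⟩ := exists_dec (pmem hE)
  obtain ⟨B1, B2, hx, hB1, hB2⟩ := (hd.ov2 hj).1 hv
  obtain ⟨-, hx2⟩ := Hf_x hE hj hn hjn hv hb hd hx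
  have hbf : ∀ e, fl μ.x (en b e) := fun e =>
    ⟨fun h => hbμ ((PW.mem_ord' e).2 h), fun n h => by simp at h⟩
  refine (hd.ov2 hn).2 ⟨B1 ++ en b false :: B2, [en b true], ?_, ?_, ?_⟩
  · rw [hx2]
    simp
  · intro s hs
    rw [List.mem_append, List.mem_cons] at hs
    rcases hs with h | h | h
    · exact hB1 s h
    · rw [h]; exact hbf false
    · exact hB2 s h
  · intro s hs
    rw [List.mem_singleton] at hs
    rw [hs]; exact hbf true

include hθj hθn

/-- number of live boundary cycles for both involutions -/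
theorem Hf_nf {b : ℕ} (hb : b ∉ v.ord) (hbμ : b ∉ μ.ord) :
    nf (θ * swap (mr n) p) Dd (Hf p n j b v).x = nf θ Dd v.x ∧
    (¬ (fp θ v.x).SameCycle p (mr j) → nf θ Dd (Hf p n j b v).x + 1 = nf θ Dd v.x) ∧
    ((fp θ v.x).SameCycle p (mr j) → nf θ Dd (Hf p n j b v).x = nf θ Dd v.x + 1) := by
  obtain ⟨l1, l2, hd⟩ := exists_dec (pmem hE)
  obtain ⟨B1, B2, hx, hB1, hB2⟩ := (hd.ov2 hj).1 hv
  obtain ⟨hx1, hx2⟩ := Hf_x hE hj hn hjn hv hb hd hx
  have hY := Hf_ov hE hj hn hjn hv hb hbμ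
  obtain ⟨s1, s2, s3⟩ := side hE hj hn hjn hv
  obtain ⟨m1, m2, m3⟩ := pmem_of hE hj hv
  have h4 := mr_notMem hE hn hjn hv
  have hb' : b ∉ (insM p n v).ord := by rwa [ord_insM]
  have hpe := pD hE
  have hjD := mrD hE hj
  have hnD := mrD hE hn
  have hjp := nep hE hj
  have hnp := nep hE hn
  -- the symbol after the marker `mr j`
  obtain ⟨t, V, htV, htD⟩ : ∃ t V, B2 ++ mr n :: en b true :: p :: l2 = t :: V ∧ t ∉ Dd := by
    rcases B2 with _ | ⟨t, B2⟩
    · exact ⟨mr n, _, rfl, hnD⟩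
    · refine ⟨t, _, rfl, fun h => ?_⟩
      exact (hB2 t (by simp)).1 (hE.dsub t h)
  have hux : (insP (mr j) p b (insM p n v)).x = insB t (mr j) (Hf p n j b v).x := by
    rw [hx1, hx2, htV]
    have e1 : l1 ++ (B1 ++ en b false :: (t :: V)) = (l1 ++ (B1 ++ [en b false])) ++ t :: V := by
      simp
    have hnd := (Hf p n j b v).nd
    rw [hx2, htV, e1] at hnd
    rw [e1, insB_split _ (fun h => (List.nodup_append.1 hnd).2.2 _ h _ (by simp) rfl)
      (List.nodup_cons.1 (List.nodup_append.1 hnd).2.1).1]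
    simp
  have htY : t ∈ (Hf p n j b v).x := by rw [hx2, htV]; simp
  have hjY : mr j ∉ (Hf p n j b v).x := fun h => (mem_delM.1 h).2 rfl
  have hθj' : (θ * swap (mr n) p) (mr j) = mr j := by
    rw [Perm.mul_apply, swap_apply_of_ne_of_ne (by
      intro h
      rw [Sy.mr.injEq] at h
      exact hjn h) hjp, hθj]
  have q1 : nf θ Dd (insP (mr j) p b (insM p n v)).x = nf θ Dd (Hf p n j b v).x := by
    rw [hux]
    exact nf_insB (Hf p n j b v).nd (Env.fp_inv (Env_ins hE hn hθn) hY) htY htD hjY hjD hθj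
  have q2 : nf (θ * swap (mr n) p) Dd (insP (mr j) p b (insM p n v)).x =
      nf (θ * swap (mr n) p) Dd (Hf p n j b v).x := by
    rw [hux]
    exact nf_insB (Hf p n j b v).nd (Env.fp_inv (Env_ins' hE hn hθn) hY) htY htD hjY hjD hθj'
  -- the word with the marker `mr n`
  have iv := Env.fp_inv (Env_ins hE hj hθj) hv
  have x4 : (insM p n v).x = insB p (mr n) v.x := insM_x h4
  have iv' : ∀ a ∈ (insM p n v).x, a ∉ Dd →
      fp θ (insM p n v).x a ∈ (insM p n v).x ∧ fp θ (insM p n v).x a ∉ Dd := by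
    rw [x4]
    exact inv_insB v.nd iv m1 hpe h4 hnD hθn
  have nM : mr n ∈ (insM p n v).x := (mem_insM m1).2 (Or.inr rfl)
  have iv'' := inv_mul iv' nM hnD s2 hpe
  have q3 : nf θ Dd (insM p n v).x = nf θ Dd v.x := by
    rw [x4]
    exact nf_insB v.nd iv m1 hpe h4 hnD hθn
  have q4 : fp θ (insM p n v).x (mr n) = p := by
    rw [x4]
    exact fp_insB_s v.nd m1 h4 hθn
  have q5 : nf (θ * swap (mr n) p) Dd (insM p n v).x = nf θ Dd v.x + 1 := by
    rw [← q3]
    refine nf_mul_same iv' nM hnD s2 hpe hnp ?_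
    have := Pool.Agent.TH286.J761.sc_step (fp θ (insM p n v).x) (mr n)
    rwa [q4] at this
  have q6 : (fp θ (insM p n v).x).SameCycle (mr j) p ↔ (fp θ v.x).SameCycle p (mr j) := by
    rw [x4, sc_insB v.nd iv m1 hpe h4 hnD hθn m2 hjD m1 hpe]
    exact Perm.sameCycle_comm
  have q7 : ¬ (fp (θ * swap (mr n) p) (insM p n v).x).SameCycle (mr j) p := by
    intro h
    have h5 : fp (θ * swap (mr n) p) (insM p n v).x p = p := by
      rw [fp_mul, Perm.mul_apply, swap_apply_right, q4]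
    exact hjp (h.eq_of_right h5)
  have hD : ∀ s ∈ Dd, s ∈ (insM p n v).x := fun s hs =>
    (mem_insM m1).2 (Or.inl (dsub_of hE hv s hs))
  have f0 : θ (en b false) = en b true := hE.flip b hbμ false
  have f1 : θ (en b true) = en b false := hE.flip b hbμ true
  have g0 : ∀ e, (θ * swap (mr n) p) (en b e) = θ (en b e) := by
    intro e
    rw [Perm.mul_apply, swap_apply_of_ne_of_ne (by simp)]
    intro h
    exact hbμ ((PW.mem_ord' e).2 (h ▸ pmem hE))
  have r1 := Pool.Agent.TH817.J872.insP_nf_merge iv'' hD ((g0 false).trans f0)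
    ((g0 true).trans f1) s1 hjD s2 hpe (Or.inr s3) hb' q7
  refine ⟨?_, ?_, ?_⟩
  · omega
  · intro h
    have r2 := Pool.Agent.TH817.J872.insP_nf_merge iv' hD f0 f1 s1 hjD s2 hpe (Or.inr s3) hb'
      (fun h' => h (q6.1 h'))
    omega
  · intro h
    have r2 := Pool.Agent.TH817.J872.insP_nf_split iv' hD f0 f1 s1 hjD s2 hpe (Or.inr s3) hb'
      (q6.2 h)
    omega

end

end Pool.Agent.TH511.AM
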