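import Pool.Agent.TH511.AM.Fc
import Pool.Agent.TH817.J872
import Pool.Agent.TH110.J874
import Pool.Agent.TH286.J846
import Pool.Agent.TH628.J873
set_option autoImplicit false

/-! Job 908, part 4: environments with an additional marker. -/
namespace Pool.Agent.TH511.AM
open Pool.Agent.TH547.Arc Pool.Agent.TH286.J846 Pool.Agent.TH628.J873 Pool.Agent.TH110.J874
open Finset Equiv

theorem muJ_one (p : Sy) (μ : PW) (j : ℕ) : muJ p μ {j} = insM p j μ := by
  unfold muJ
  rw [Finset.sort_singleton]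
  rfl

theorem mrs_one (j : ℕ) : mrs {j} = {mr j} := Finset.image_singleton _ _

theorem last_of {u v l : List Sy} {w : Sy} (h : u ++ v = l ++ [w]) (hv : v ≠ []) :
    ∃ v', v = v' ++ [w] := by
  rcases List.eq_nil_or_concat v with rfl | ⟨v', w', rfl⟩
  · exact absurd rfl hv
  · rw [List.concat_eq_append] at h ⊢
    rw [← List.append_assoc] at h
    have := (List.append_inj' h rfl).2
    rw [this]
    exact ⟨v', rfl⟩

/-- the block decomposition of the frozen word -/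
structure Dec (p : Sy) (μ : PW) (l1 l2 : List Sy) : Prop where
  eq : μ.x = l1 ++ p :: l2
  h1 : p ∉ l1
  h2 : p ∉ l2

theorem exists_dec {p : Sy} {μ : PW} (hp : p ∈ μ.x) : ∃ l1 l2, Dec p μ l1 l2 := by
  obtain ⟨l1, l2, h⟩ := List.append_of_mem hp
  have hn := μ.nd
  rw [h] at hn
  refine ⟨l1, l2, h, fun h' => (List.nodup_append.1 hn).2.2 p h' p (by simp) rfl, ?_⟩
  exact (List.nodup_cons.1 (List.nodup_append.1 hn).2.1).1

section
variable {p : Sy} {μ : PW} {l1 l2 : List Sy} (hd : Dec p μ l1 l2)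
include hd

theorem Dec.mem : p ∈ μ.x := by rw [hd.eq]; simp

theorem Dec.ins_x {n : ℕ} (hn : mr n ∉ μ.x) : (insM p n μ).x = l1 ++ mr n :: p :: l2 := by
  rw [insM_x hn, hd.eq, insB_split _ hd.h1 hd.h2]

theorem Dec.fl_ins {n : ℕ} (hn : mr n ∉ μ.x) (s : Sy) :
    fl (l1 ++ mr n :: p :: l2) s ↔ fl μ.x s := by
  rw [← hd.ins_x hn]
  unfold fl
  rw [mem_insM hd.mem]
  constructor
  · rintro ⟨h1, h2⟩
    exact ⟨fun h => h1 (Or.inl h), h2⟩
  · rintro ⟨h1, h2⟩
    refine ⟨?_, h2⟩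
    rintro (h | h)
    · exact h1 h
    · exact h2 n h

theorem Dec.ov1 {X : PW} : OvP μ {p} X ↔
    ∃ B, X.x = l1 ++ (B ++ p :: l2) ∧ ∀ s ∈ B, fl μ.x s := by
  unfold OvP
  rw [hd.eq]
  exact over1 X.nd

theorem Dec.ov2 {n : ℕ} (hn : mr n ∉ μ.x) {X : PW} : OvP (insM p n μ) {p, mr n} X ↔
    ∃ B1 B2, X.x = l1 ++ (B1 ++ mr n :: (B2 ++ p :: l2)) ∧ (∀ s ∈ B1, fl μ.x s) ∧
      ∀ s ∈ B2, fl μ.x s := by
  unfold OvP
  rw [hd.ins_x hn, over2 X.nd]
  simp only [hd.fl_ins hn]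

end

section
variable {θ : Perm Sy} {μ : PW} {p : Sy} {Dd : Finset Sy} (hE : Env θ μ {p} Dd)
include hE

theorem pmem : p ∈ μ.x := (hE.sub p (Finset.mem_singleton_self p)).1
theorem pD : p ∉ Dd := (hE.sub p (Finset.mem_singleton_self p)).2

theorem mrD {n : ℕ} (hn : mr n ∉ μ.x) : mr n ∉ Dd := fun h => hn (hE.dsub _ h)

theorem nep {n : ℕ} (hn : mr n ∉ μ.x) : mr n ≠ p := fun h => hn (h ▸ pmem hE)

omit hE in
theorem nm_ins (n : ℕ) : W.nm (insM p n μ) = W.nm μ := by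
  show (insM p n μ).ord.toFinset = μ.ord.toFinset
  rw [ord_insM]

omit hE in
theorem mem_nmW {X : PW} {a : ℕ} : a ∈ W.nm X ↔ a ∈ X.ord := Sys.mem_nm

/-- an additional marker before `p` -/
theorem Env_ins {n : ℕ} (hn : mr n ∉ μ.x) (hθ : θ (mr n) = mr n) :
    Env θ (insM p n μ) {p, mr n} Dd := by
  have hinv := Env.fp_inv hE (OvP.self hE)
  have hx : (insM p n μ).x = insB p (mr n) μ.x := insM_x hn
  refine ⟨?_, ?_, ?_, ?_, ?_, ?_, ?_, ?_⟩
  · intro a ha e
    rw [ord_insM] at ha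
    exact hE.flip a ha e
  · intro s hs
    rcases (mem_insM (pmem hE)).1 hs with h | h
    · exact (mem_insM (pmem hE)).2 (Or.inl (hE.pres s h))
    · rw [h, hθ]
      exact (mem_insM (pmem hE)).2 (Or.inr rfl)
  · obtain ⟨l1, l2, hd⟩ := exists_dec (pmem hE)
    obtain ⟨l, k, hl⟩ := hE.last
    rw [hd.eq] at hl
    obtain ⟨v', hv'⟩ := last_of hl (by simp)
    refine ⟨l1 ++ mr n :: v', k, ?_⟩
    rw [hd.ins_x hn, hv']
    simp
  · intro s hs
    rw [Finset.mem_insert, Finset.mem_singleton] at hs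
    rcases hs with rfl | rfl
    · exact ⟨(mem_insM (pmem hE)).2 (Or.inl (pmem hE)), pD hE⟩
    · exact ⟨(mem_insM (pmem hE)).2 (Or.inr rfl), mrD hE hn⟩
  · intro s hs
    exact (mem_insM (pmem hE)).2 (Or.inl (hE.dsub s hs))
  · intro s hs
    have h1 := hE.dinv s hs
    rw [hx, fp_insB μ.nd (pmem hE) hn, Perm.mul_apply, swap_apply_of_ne_of_ne]
    · exact h1
    · exact fun h => mrD hE hn (h ▸ h1)
    · exact fun h => pD hE (h ▸ h1)
  · intro s hs hsD
    rcases (mem_insM (pmem hE)).1 hs with h | h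
    · obtain ⟨q, hq, hsc⟩ := hE.live s h hsD
      rw [Finset.mem_singleton] at hq
      subst hq
      refine ⟨q, by simp, ?_⟩
      rw [hx]
      exact (sc_insB μ.nd hinv (pmem hE) (pD hE) hn (mrD hE hn) hθ h hsD (pmem hE) (pD hE)).2 hsc
    · exact ⟨mr n, by simp, h ▸ Perm.SameCycle.refl _ _⟩
  · exact ⟨p, by simp⟩

/-- the same with the modified `θ` -/
theorem Env_ins' {n : ℕ} (hn : mr n ∉ μ.x) (hθ : θ (mr n) = mr n) :
    Env (θ * swap (mr n) p) (insM p n μ) {p, mr n} Dd := by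
  have hE1 := Env_ins hE hn hθ
  have hx : (insM p n μ).x = insB p (mr n) μ.x := insM_x hn
  refine ⟨?_, ?_, hE1.last, hE1.sub, hE1.dsub, ?_, ?_, hE1.ne⟩
  · intro a ha e
    have h1 : en a e ≠ p := by
      intro h
      rw [ord_insM] at ha
      exact ha ((PW.mem_ord' e).2 (h ▸ pmem hE))
    rw [Perm.mul_apply, swap_apply_of_ne_of_ne (by simp) h1]
    exact hE1.flip a ha e
  · intro s hs
    rw [Perm.mul_apply]
    apply hE1.pres
    by_cases h1 : s = mr n
    · rw [h1, swap_apply_left]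
      exact (mem_insM (pmem hE)).2 (Or.inl (pmem hE))
    · by_cases h2 : s = p
      · rw [h2, swap_apply_right]
        exact (mem_insM (pmem hE)).2 (Or.inr rfl)
      · rw [swap_apply_of_ne_of_ne h1 h2]
        exact hs
  · intro s hs
    rw [fp_mul, Perm.mul_apply, swap_apply_of_ne_of_ne]
    · exact hE1.dinv s hs
    · exact fun h => mrD hE hn (h ▸ hs)
    · exact fun h => pD hE (h ▸ hs)
  · intro s hs hsD
    by_cases h1 : s = mr n
    · exact ⟨mr n, by simp, h1 ▸ Perm.SameCycle.refl _ _⟩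
    · by_cases h2 : s = p
      · exact ⟨p, by simp, h2 ▸ Perm.SameCycle.refl _ _⟩
      · have h3 : s ∈ μ.x := ((mem_insM (pmem hE)).1 hs).resolve_right h1
        obtain ⟨q, hq, hsc⟩ := hE.live s h3 hsD
        rw [Finset.mem_singleton] at hq
        subst hq
        refine ⟨mr n, by simp, ?_⟩
        have h4 := hsc.conj (g := swap (mr n) q)
        rw [swap_apply_of_ne_of_ne h1 h2, swap_apply_right, swap_inv] at h4
        rw [fp_mul, hx, fp_insB μ.nd (pmem hE) hn]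
        exact h4

/-- a cell over the frozen word with an additional marker contains no other markers -/
theorem mr_notMem {j n : ℕ} (hn : mr n ∉ μ.x) (hjn : j ≠ n) {v : PW}
    (hv : OvP (insM p j μ) {p, mr j} v) : mr n ∉ v.x := by
  intro h
  rcases (mem_insM (pmem hE)).1 (hv.2.1 n h) with h1 | h1
  · exact hn h1
  · rw [Sy.mr.injEq] at h1
    exact hjn h1.symm

theorem pmem_of {j : ℕ} {v : PW} (hj : mr j ∉ μ.x) (hv : OvP (insM p j μ) {p, mr j} v) :
    p ∈ v.x ∧ mr j ∈ v.x ∧ [mr j, p].Sublist v.x := by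
  obtain ⟨l1, l2, hd⟩ := exists_dec (pmem hE)
  obtain ⟨B1, B2, hx, -, -⟩ := (hd.ov2 hj).1 hv
  rw [hx]
  refine ⟨by simp, by simp, ?_⟩
  rw [← List.append_assoc]
  refine List.Sublist.trans ?_ (List.sublist_append_right _ _)
  refine List.Sublist.cons_cons _ ?_
  rw [List.singleton_sublist]
  simp

theorem dsub_of {j : ℕ} {v : PW} (hv : OvP (insM p j μ) {p, mr j} v) :
    ∀ s ∈ Dd, s ∈ v.x := by
  intro s hs
  have h1 : s ∈ (insM p j μ).x := (mem_insM (pmem hE)).2 (Or.inl (hE.dsub s hs))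
  rw [← hv.1, List.mem_filter] at h1
  exact h1.1

end

end Pool.Agent.TH511.AM
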