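import Pool.Agent.TH547.Arc.Mark2
import Pool.Agent.TH286.J761
import Pool.Agent.TH286.J762
set_option autoImplicit false

/-! Job 908, part 2: words with markers, blocks. -/
namespace Pool.Agent.TH511.AM
open Pool.Agent.TH547.Arc
open Finset Equiv

/-! ### removal and insertion of markers -/

theorem mem_delM {n : ℕ} {X : PW} {s : Sy} : s ∈ (delM n X).x ↔ s ∈ X.x ∧ s ≠ mr n := by
  unfold delM
  rw [List.mem_filter, decide_eq_true_iff]

theorem mem_insM {t : Sy} {n : ℕ} {X : PW} (ht : t ∈ X.x) {s : Sy} :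
    s ∈ (insM t n X).x ↔ s ∈ X.x ∨ s = mr n := by
  by_cases h : mr n ∈ X.x
  · have : insM t n X = X := by
      unfold insM
      rw [dif_neg (not_not.2 h)]
    rw [this]
    exact ⟨Or.inl, fun h' => h'.elim id (fun e => e ▸ h)⟩
  · rw [insM_x h, insB_mem]
    exact ⟨fun h' => h'.imp id (fun e => e.1), fun h' => h'.imp id (fun e => ⟨e, ht⟩)⟩

theorem delM_insM (t : Sy) (n : ℕ) {X : PW} (h : mr n ∉ X.x) : delM n (insM t n X) = X := by
  apply PW.ext
  show (insM t n X).x.filter (fun s => decide (s ≠ mr n)) = X.x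
  rw [insM_x h, insB_filter_neg _ _ (by simp), List.filter_eq_self]
  intro s hs
  rw [decide_eq_true_iff]
  rintro rfl
  exact h hs

theorem ord_filter {X : PW} {f : Sy → Bool} (hf : ∀ a : ℕ, f (en a false) = true) :
    (X.x.filter f).filterMap fname = X.ord := by
  unfold PW.ord
  induction X.x with
  | nil => rfl
  | cons s l ih =>
    rcases s with n | ⟨b, _ | _⟩
    · have h1 : fname (mr n) = none := rfl
      rw [List.filter_cons, List.filterMap_cons_none h1]
      split_ifs
      · rw [List.filterMap_cons_none h1, ih]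
      · exact ih
    · have h1 : fname (en b false) = some b := rfl
      rw [List.filter_cons_of_pos (hf b), List.filterMap_cons_some h1,
        List.filterMap_cons_some h1, ih]
    · have h1 : fname (en b true) = none := rfl
      rw [List.filter_cons, List.filterMap_cons_none h1]
      split_ifs
      · rw [List.filterMap_cons_none h1, ih]
      · exact ih

theorem ord_delM (n : ℕ) (X : PW) : (delM n X).ord = X.ord :=
  ord_filter (X := X) (f := fun s => decide (s ≠ mr n)) (fun a => by simp)

theorem ord_clrM (N0 : ℕ) (X : PW) : (clrM N0 X).ord = X.ord :=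
  ord_filter (X := X) (f := nax N0) (fun a => rfl)

theorem ord_insM (t : Sy) (n : ℕ) (X : PW) : (insM t n X).ord = X.ord := by
  by_cases h : mr n ∈ X.x
  · unfold insM
    rw [dif_neg (not_not.2 h)]
  · conv_rhs => rw [← delM_insM t n h]
    rw [ord_delM]

theorem dl_delM (n : ℕ) (X : PW) (a : ℕ) : (delM n X).dl a = delM n (X.dl a) := by
  apply PW.ext
  show (X.x.filter _).filter _ = (X.x.filter _).filter _
  rw [List.filter_filter, List.filter_filter]
  congr 1
  ext s
  rw [Bool.and_comm]

theorem dl_clrM (N0 : ℕ) (X : PW) (a : ℕ) : (clrM N0 X).dl a = clrM N0 (X.dl a) := by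
  apply PW.ext
  show (X.x.filter _).filter _ = (X.x.filter _).filter _
  rw [List.filter_filter, List.filter_filter]
  congr 1
  ext s
  rw [Bool.and_comm]

theorem mr_mem_dl {n : ℕ} {X : PW} {a : ℕ} : mr n ∈ (X.dl a).x ↔ mr n ∈ X.x := by
  unfold PW.dl
  rw [List.mem_filter]
  exact ⟨fun h => h.1, fun h => ⟨h, offA_mr a n⟩⟩

theorem mr_mem_rn {n : ℕ} {X : PW} {π : Perm ℕ} : mr n ∈ (X.rn π).x ↔ mr n ∈ X.x := by
  unfold PW.rn
  rw [List.mem_map]
  constructor
  · rintro ⟨s, hs, h⟩
    rw [← rnS_mr π n] at h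
    rw [(rnS π).injective h] at hs
    exact hs
  · intro h
    exact ⟨mr n, h, rfl⟩

theorem dl_insM {t : Sy} (n : ℕ) (X : PW) {a : ℕ} (h : offA a t = true) :
    (insM t n X).dl a = insM t n (X.dl a) := by
  apply PW.ext
  by_cases hn : mr n ∈ X.x
  · have h1 : insM t n X = X := by
      unfold insM
      rw [dif_neg (not_not.2 hn)]
    have h2 : insM t n (X.dl a) = X.dl a := by
      unfold insM
      rw [dif_neg (not_not.2 (mr_mem_dl.2 hn))]
    rw [h1, h2]
  · rw [insM_x (fun h' => hn (mr_mem_dl.1 h'))]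
    show (insM t n X).x.filter (offA a) = insB t (mr n) (X.x.filter (offA a))
    rw [insM_x hn, insB_filter_pos _ _ h (offA_mr a n)]

theorem rn_delM (n : ℕ) (X : PW) (π : Perm ℕ) : (delM n X).rn π = delM n (X.rn π) := by
  apply PW.ext
  show (X.x.filter _).map (rnS π) = (X.x.map (rnS π)).filter _
  rw [List.filter_map]
  congr 2
  ext s
  have h : rnS π s = mr n ↔ s = mr n := by
    constructor
    · intro h
      rw [← rnS_mr π n] at h
      exact (rnS π).injective h
    · rintro rfl
      exact rnS_mr π n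
  show decide (s ≠ mr n) = decide (rnS π s ≠ mr n)
  simp only [ne_eq, h]

theorem nax_rnS (N0 : ℕ) (π : Perm ℕ) (s : Sy) : nax N0 (rnS π s) = nax N0 s := by
  rcases s with n | ⟨b, e⟩ <;> rfl

theorem rn_clrM (N0 : ℕ) (X : PW) (π : Perm ℕ) : (clrM N0 X).rn π = clrM N0 (X.rn π) := by
  apply PW.ext
  show (X.x.filter _).map (rnS π) = (X.x.map (rnS π)).filter _
  rw [List.filter_map]
  congr 2
  ext s
  exact (nax_rnS N0 π s).symm

theorem rn_insM (t : Sy) (n : ℕ) (X : PW) (π : Perm ℕ) :
    (insM t n X).rn π = insM (rnS π t) n (X.rn π) := by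
  apply PW.ext
  by_cases hn : mr n ∈ X.x
  · have h1 : insM t n X = X := by
      unfold insM
      rw [dif_neg (not_not.2 hn)]
    have h2 : insM (rnS π t) n (X.rn π) = X.rn π := by
      unfold insM
      rw [dif_neg (not_not.2 (mr_mem_rn.2 hn))]
    rw [h1, h2]
  · rw [insM_x (fun h' => hn (mr_mem_rn.1 h'))]
    show (insM t n X).x.map (rnS π) = insB (rnS π t) (mr n) (X.x.map (rnS π))
    rw [insM_x hn, insB_map _ (rnS π).injective, rnS_mr]

theorem mem_JJ {N0 : ℕ} {X : PW} {n : ℕ} : n ∈ JJ N0 X ↔ mr n ∈ X.x ∧ N0 ≤ n := by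
  unfold JJ
  rw [List.mem_toFinset, List.mem_filterMap]
  constructor
  · rintro ⟨s, hs, h⟩
    rcases s with k | ⟨b, e⟩
    · simp only at h
      split_ifs at h with h1
      rw [Option.some.injEq] at h
      subst h
      exact ⟨hs, h1⟩
    · simp at h
  · rintro ⟨h1, h2⟩
    exact ⟨mr n, h1, by simp [h2]⟩

theorem JJ_dl (N0 : ℕ) (X : PW) (a : ℕ) : JJ N0 (X.dl a) = JJ N0 X := by
  ext n
  rw [mem_JJ, mem_JJ, mr_mem_dl]

theorem JJ_rn (N0 : ℕ) (X : PW) (π : Perm ℕ) : JJ N0 (X.rn π) = JJ N0 X := by
  ext n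
  rw [mem_JJ, mem_JJ, mr_mem_rn]

/-! ### blocks -/

/-- free letters -/
def fl (μ : List Sy) (s : Sy) : Prop := s ∉ μ ∧ ∀ n, s ≠ mr n

theorem own_app {μ u v : List Sy} {s : Sy} (h : s ∉ u) :
    own μ (u ++ s :: v) s = (s :: v).find? (fun t => decide (t ∈ μ)) := by
  unfold own
  rw [List.dropWhile_append_of_pos (by
    intro t ht
    rw [decide_eq_true_iff]
    rintro rfl
    exact h ht)]
  rw [List.dropWhile_cons_of_neg (by simp)]

theorem find_blk {μ B v : List Sy} {q : Sy} (hB : ∀ t ∈ B, t ∉ μ) (hq : q ∈ μ) :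
    (B ++ q :: v).find? (fun t => decide (t ∈ μ)) = some q := by
  induction B with
  | nil => rw [List.nil_append, List.find?_cons_of_pos (by simpa using hq)]
  | cons b B ih =>
    rw [List.cons_append, List.find?_cons_of_neg (by simpa using hB b (by simp))]
    exact ih (fun t ht => hB t (List.mem_cons_of_mem _ ht))

theorem own_blk {μ u B v : List Sy} {q s : Sy} (hx : (u ++ (B ++ q :: v)).Nodup)
    (hB : ∀ t ∈ B, t ∉ μ) (hq : q ∈ μ) (hs : s ∈ B) :
    own μ (u ++ (B ++ q :: v)) s = some q := by
  obtain ⟨B1, B2, rfl⟩ := List.append_of_mem hs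
  have e : u ++ ((B1 ++ s :: B2) ++ q :: v) = (u ++ B1) ++ s :: (B2 ++ q :: v) := by simp
  rw [e] at hx ⊢
  have h1 : s ∉ u ++ B1 := fun h => (List.nodup_append.1 hx).2.2 s h s (by simp) rfl
  rw [own_app h1, ← List.cons_append]
  exact find_blk (fun t ht => hB t (by
    rw [List.mem_append]
    exact Or.inr ht)) hq

theorem dw_head {f : Sy → Bool} {l t : List Sy} {s : Sy} (h : l.dropWhile f = s :: t) :
    f s = false := by
  induction l with
  | nil => simp at h
  | cons u l ih =>
    by_cases hu : f u = true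
    · rw [List.dropWhile_cons_of_pos hu] at h
      exact ih h
    · rw [List.dropWhile_cons_of_neg hu, List.cons.injEq] at h
      rw [← h.1]
      simpa using hu

/-- the symbols before a symbol of the frozen word -/
theorem seg {μ a e : List Sy} {P : Finset Sy} {x : List Sy} {q : Sy} (hx : x.Nodup)
    (hov : ∀ s ∈ x, s ∉ μ → ∃ p ∈ P, own μ x s = some p) (hxe : x = a ++ q :: e)
    (haP : ∀ s ∈ a, s ∉ P) :
    ∃ B, a = a.filter (fun t => decide (t ∈ μ)) ++ B ∧ ∀ s ∈ B, s ∉ μ := by
  set a1 := a.takeWhile (fun t => decide (t ∈ μ)) with ha1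
  set a2 := a.dropWhile (fun t => decide (t ∈ μ)) with ha2
  have haa : a1 ++ a2 = a := List.takeWhile_append_dropWhile
  have h1 : ∀ t ∈ a1, t ∈ μ := fun t ht => by simpa using List.mem_takeWhile_imp ht
  have h2 : ∀ t ∈ a2, t ∉ μ := by
    rcases h : a2 with _ | ⟨s, a3⟩
    · simp
    · have hs : s ∉ μ := by
        have h3 := dw_head (ha2.symm.trans h)
        simpa using h3
      have hsx : s ∈ x := by
        rw [hxe, ← haa, h]
        simp
      obtain ⟨p, hp, hop⟩ := hov s hsx hs
      have e1 : x = a1 ++ s :: (a3 ++ q :: e) := by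
        rw [hxe, ← haa, h]
        simp
      have hs1 : s ∉ a1 := fun h' => (List.nodup_append.1 (e1 ▸ hx)).2.2 s h' s (by simp) rfl
      rw [e1, own_app hs1] at hop
      intro t ht htμ
      -- the first symbol of `μ` in `s :: a3` is the owner
      rw [← List.cons_append, List.find?_append] at hop
      have h4 : (List.find? (fun t => decide (t ∈ μ)) (s :: a3)).isSome := by
        rw [List.find?_isSome]
        exact ⟨t, ht, by simpa using htμ⟩
      obtain ⟨u, hu⟩ := Option.isSome_iff_exists.1 h4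
      rw [hu, Option.some_or, Option.some.injEq] at hop
      subst hop
      have h5 : u ∈ s :: a3 := List.mem_of_find?_eq_some hu
      exact haP u (by rw [← haa, h]; exact List.mem_append_right _ h5) hp
  refine ⟨a2, ?_, h2⟩
  have h3 : a.filter (fun t => decide (t ∈ μ)) = a1 := by
    rw [← haa, List.filter_append, List.filter_eq_self.2 (fun t ht => by simpa using h1 t ht),
      List.filter_eq_nil_iff.2 (fun t ht => by simpa using h2 t ht), List.append_nil]
  rw [h3, haa]

/-- the symbols after the last allowed block -/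
theorem seg_tail {μ a e : List Sy} {P : Finset Sy} {x : List Sy} (hx : x.Nodup)
    (hov : ∀ s ∈ x, s ∉ μ → ∃ p ∈ P, own μ x s = some p) (hxe : x = a ++ e)
    (heP : ∀ s ∈ e, s ∉ P) : e.filter (fun t => decide (t ∈ μ)) = e := by
  rw [List.filter_eq_self]
  intro s hs
  rw [decide_eq_true_iff]
  by_contra hsμ
  obtain ⟨p, hp, hop⟩ := hov s (by rw [hxe]; exact List.mem_append_right _ hs) hsμ
  obtain ⟨e1, e2, rfl⟩ := List.append_of_mem hs
  have e3 : x = (a ++ e1) ++ s :: e2 := by rw [hxe]; simp
  have hs1 : s ∉ a ++ e1 := fun h' => (List.nodup_append.1 (e3 ▸ hx)).2.2 s h' s (by simp) rfl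
  rw [e3, own_app hs1] at hop
  have h5 : p ∈ s :: e2 := List.mem_of_find?_eq_some hop
  exact heP p (by rw [List.mem_append]; exact Or.inr h5) hp

theorem split_filter {f : Sy → Bool} {x u v : List Sy} {q : Sy} (h : x.filter f = u ++ q :: v) :
    ∃ a e, x = a ++ q :: e ∧ a.filter f = u ∧ e.filter f = v := by
  induction x generalizing u with
  | nil => simp at h
  | cons t x ih =>
    by_cases ht : f t = true
    · rw [List.filter_cons_of_pos ht] at h
      rcases u with _ | ⟨w, u⟩
      · rw [List.nil_append, List.cons.injEq] at h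
        refine ⟨[], x, ?_, rfl, h.2⟩
        rw [h.1]; rfl
      · rw [List.cons_append, List.cons.injEq] at h
        obtain ⟨a, e, h1, h2, h3⟩ := ih h.2
        refine ⟨t :: a, e, ?_, ?_, h3⟩
        · rw [h1]; rfl
        · rw [List.filter_cons_of_pos ht, h2, h.1]
    · rw [List.filter_cons_of_neg ht] at h
      obtain ⟨a, e, h1, h2, h3⟩ := ih h
      refine ⟨t :: a, e, ?_, ?_, h3⟩
      · rw [h1]; rfl
      · rw [List.filter_cons_of_neg ht, h2]

/-- words over a frozen word with one allowed block -/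
theorem over1 {l1 l2 x : List Sy} {p : Sy} (hx : x.Nodup) :
    Over (l1 ++ p :: l2) {p} x ↔
      ∃ B, x = l1 ++ (B ++ p :: l2) ∧ ∀ s ∈ B, fl (l1 ++ p :: l2) s := by
  constructor
  · rintro ⟨h1, h2, h3⟩
    obtain ⟨a, e, hxe, ha, he⟩ := split_filter h1
    have hxe' := hx
    rw [hxe] at hxe'
    have hpa : p ∉ a := fun h => (List.nodup_append.1 hxe').2.2 p h p (by simp) rfl
    have hpe : p ∉ e := (List.nodup_cons.1 (List.nodup_append.1 hxe').2.1).1
    obtain ⟨B, hB1, hB2⟩ := seg hx h3 hxe (fun s hs h => by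
      rw [Finset.mem_singleton] at h
      exact hpa (h ▸ hs))
    have he2 := seg_tail (a := a ++ [p]) (e := e) hx h3 (by rw [hxe]; simp) (fun s hs h => by
      rw [Finset.mem_singleton] at h
      exact hpe (h ▸ hs))
    refine ⟨B, ?_, ?_⟩
    · rw [hxe, hB1, ha, ← he, he2]
      simp
    · intro s hs
      refine ⟨hB2 s hs, ?_⟩
      rintro n rfl
      refine hB2 _ hs (h2 n ?_)
      rw [hxe, hB1]
      simp [hs]
  · rintro ⟨B, rfl, hB⟩
    refine ⟨?_, ?_, ?_⟩
    · have e1 : B.filter (fun t => decide (t ∈ l1 ++ p :: l2)) = [] :=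
        List.filter_eq_nil_iff.2 (fun s hs => by simpa using (hB s hs).1)
      have e3 : l1.filter (fun t => decide (t ∈ l1 ++ p :: l2)) = l1 :=
        List.filter_eq_self.2 (fun s hs => by simp [hs])
      have e4 : (p :: l2).filter (fun t => decide (t ∈ l1 ++ p :: l2)) = p :: l2 :=
        List.filter_eq_self.2 (fun s hs => by
          rw [decide_eq_true_iff, List.mem_append]
          exact Or.inr hs)
      rw [List.filter_append, List.filter_append, e1, e3, e4, List.nil_append]
    · intro n hn
      rw [List.mem_append, List.mem_append] at hn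
      rcases hn with h | h | h
      · exact List.mem_append_left _ h
      · exact absurd rfl ((hB _ h).2 n)
      · exact List.mem_append_right _ h
    · intro s hs hsμ
      rw [List.mem_append, List.mem_append] at hs
      rcases hs with h | h | h
      · exact absurd (List.mem_append_left _ h) hsμ
      · exact ⟨p, Finset.mem_singleton_self p, own_blk hx (fun t ht => (hB t ht).1) (by simp) h⟩
      · exact absurd (List.mem_append_right _ h) hsμ

/-- words over a frozen word with two consecutive allowed blocks -/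
theorem over2 {l1 l2 x : List Sy} {p m : Sy} (hx : x.Nodup) :
    Over (l1 ++ m :: p :: l2) {p, m} x ↔
      ∃ B1 B2, x = l1 ++ (B1 ++ m :: (B2 ++ p :: l2)) ∧
        (∀ s ∈ B1, fl (l1 ++ m :: p :: l2) s) ∧ ∀ s ∈ B2, fl (l1 ++ m :: p :: l2) s := by
  constructor
  · rintro ⟨h1, h2, h3⟩
    obtain ⟨a, e, hxe, ha, he⟩ := split_filter h1
    obtain ⟨b, d, hed, hb, hd⟩ := split_filter (u := []) he
    have hxe' := hx
    rw [hxe, hed] at hxe'
    have hma : m ∉ a := fun h => (List.nodup_append.1 hxe').2.2 m h m (by simp) rfl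
    have hpa : p ∉ a := fun h => (List.nodup_append.1 hxe').2.2 p h p (by simp) rfl
    have h5 := List.nodup_cons.1 (List.nodup_append.1 hxe').2.1
    have hmd : m ∉ d := fun h => h5.1 (by simp [h])
    have hpd : p ∉ d := (List.nodup_cons.1 (List.nodup_append.1 h5.2).2.1).1
    obtain ⟨B, hB1, hB2⟩ := seg hx h3 hxe (fun s hs h => by
      rw [Finset.mem_insert, Finset.mem_singleton] at h
      rcases h with h | h
      · exact hpa (h ▸ hs)
      · exact hma (h ▸ hs))
    have he2 := seg_tail (a := a ++ m :: (b ++ [p])) (e := d) hx h3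
      (by rw [hxe, hed]; simp) (fun s hs h => by
      rw [Finset.mem_insert, Finset.mem_singleton] at h
      rcases h with h | h
      · exact hpd (h ▸ hs)
      · exact hmd (h ▸ hs))
    have hbn : ∀ s ∈ b, s ∉ l1 ++ m :: p :: l2 := fun s hs => by
      simpa using List.filter_eq_nil_iff.1 hb s hs
    refine ⟨B, b, ?_, ?_, ?_⟩
    · rw [hxe, hed, hB1, ha, ← hd, he2]
      simp
    · intro s hs
      refine ⟨hB2 s hs, ?_⟩
      rintro n rfl
      refine hB2 _ hs (h2 n ?_)
      rw [hxe, hB1]
      simp [hs]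
    · intro s hs
      refine ⟨hbn s hs, ?_⟩
      rintro n rfl
      refine hbn _ hs (h2 n ?_)
      rw [hxe, hed]
      simp [hs]
  · rintro ⟨B1, B2, rfl, hB1, hB2⟩
    refine ⟨?_, ?_, ?_⟩
    · have e1 : B1.filter (fun t => decide (t ∈ l1 ++ m :: p :: l2)) = [] :=
        List.filter_eq_nil_iff.2 (fun s hs => by simpa using (hB1 s hs).1)
      have e2 : B2.filter (fun t => decide (t ∈ l1 ++ m :: p :: l2)) = [] :=
        List.filter_eq_nil_iff.2 (fun s hs => by simpa using (hB2 s hs).1)
      have e3 : l1.filter (fun t => decide (t ∈ l1 ++ m :: p :: l2)) = l1 :=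
        List.filter_eq_self.2 (fun s hs => by simp [hs])
      have e4 : (p :: l2).filter (fun t => decide (t ∈ l1 ++ m :: p :: l2)) = p :: l2 :=
        List.filter_eq_self.2 (fun s hs => by
          rw [decide_eq_true_iff, List.mem_append, List.mem_cons]
          exact Or.inr (Or.inr hs))
      rw [List.filter_append, List.filter_append, List.filter_cons_of_pos (by simp),
        List.filter_append, e1, e2, e3, e4]
      simp
    · intro n hn
      rw [List.mem_append, List.mem_append, List.mem_cons, List.mem_append] at hn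
      rcases hn with h | h | h | h | h
      · exact List.mem_append_left _ h
      · exact absurd rfl ((hB1 _ h).2 n)
      · rw [h]; simp
      · exact absurd rfl ((hB2 _ h).2 n)
      · rw [List.mem_append, List.mem_cons]
        exact Or.inr (Or.inr h)
    · intro s hs hsμ
      rw [List.mem_append, List.mem_append, List.mem_cons, List.mem_append] at hs
      rcases hs with h | h | h | h | h
      · exact absurd (List.mem_append_left _ h) hsμ
      · exact ⟨m, by simp, own_blk hx (fun t ht => (hB1 t ht).1) (by simp) h⟩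
      · exact absurd (by rw [h]; simp) hsμ
      · refine ⟨p, by simp, ?_⟩
        have e1 : l1 ++ (B1 ++ m :: (B2 ++ p :: l2)) = (l1 ++ B1 ++ [m]) ++ (B2 ++ p :: l2) := by
          simp
        rw [e1] at hx ⊢
        exact own_blk hx (fun t ht => (hB2 t ht).1) (by simp) h
      · refine absurd ?_ hsμ
        rw [List.mem_append, List.mem_cons]
        exact Or.inr (Or.inr h)

end Pool.Agent.TH511.AM
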